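import Pool.Agent.Work.MP_cfa43e_lc.Her.StmtsD

set_option autoImplicit false

namespace Pool.Agent.PHer

open Pool.Agent.PEmb Pool.Agent.PReg

namespace ItD14

/-- The sets which are considered. -/
def Good {V T : Type} (G : SimpleGraph V) (bag : T → Set V) (M : ℕ) (W U : Finset V) : Prop :=
  M ≤ U.card ∧ ∃ x, ∀ v ∈ U, ∀ u ∈ W, G.Adj v u → u ∈ U ∨ u ∈ bag x

open Classical in
theorem card_bag {V : Type} (b : Set V) (w : ℕ) (hb : b.encard ≤ (w : ℕ∞) + 1) (S : Finset V) :
    (S.filter fun u => u ∈ b).card ≤ w + 1 := by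
  have h1 : ((S.filter fun u => u ∈ b : Finset V) : Set V).encard ≤ b.encard := by
    apply Set.encard_le_encard
    intro u hu
    exact (Finset.mem_filter.1 (Finset.mem_coe.1 hu)).2
  rw [Set.encard_coe_eq_coe_finsetCard] at h1
  have h2 := h1.trans hb
  exact_mod_cast h2

theorem conn {V T : Type} (G : SimpleGraph V) (bag : T → Set V) (M : ℕ)
    (W U : Finset V) (hUW : U ⊆ W) (hU : Good G bag M W U) (hbig : 2 * M + 1 ≤ U.card)
    (hmin : ∀ U' : Finset V, U' ⊆ W → Good G bag M W U' → U.card ≤ U'.card) :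
    (G.induce (U : Set V)).Connected := by
  classical
  obtain ⟨h1, x, hx⟩ := hU
  have hne : U.Nonempty := Finset.card_pos.1 (by omega)
  obtain ⟨v0, hv0⟩ := hne
  have : Nonempty (U : Set V) := ⟨⟨v0, hv0⟩⟩
  refine SimpleGraph.Connected.mk ?_
  intro a b
  by_contra hab
  set U1 := U.filter fun v => ∃ hv : v ∈ (U : Set V), (G.induce (U : Set V)).Reachable a ⟨v, hv⟩
    with hU1
  set U2 := U.filter fun v => ¬ ∃ hv : v ∈ (U : Set V),
    (G.induce (U : Set V)).Reachable a ⟨v, hv⟩ with hU2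
  have hcard : U1.card + U2.card = U.card := Finset.card_filter_add_card_filter_not _
  have ha1 : a.1 ∈ U1 := Finset.mem_filter.2 ⟨a.2, a.2, SimpleGraph.Reachable.refl _⟩
  have hb2 : b.1 ∈ U2 := Finset.mem_filter.2 ⟨b.2, fun ⟨_, h⟩ => hab h⟩
  have hp1 : 0 < U1.card := Finset.card_pos.2 ⟨_, ha1⟩
  have hp2 : 0 < U2.card := Finset.card_pos.2 ⟨_, hb2⟩
  have hs1 : U1 ⊆ U := Finset.filter_subset _ _
  have hs2 : U2 ⊆ U := Finset.filter_subset _ _
  rcases Nat.lt_or_ge U1.card M with h | h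
  · have hg : Good G bag M W U2 := by
      refine ⟨by omega, x, ?_⟩
      intro v hv u hu hvu
      obtain ⟨hv', hv''⟩ := Finset.mem_filter.1 hv
      rcases hx v hv' u hu hvu with h' | h'
      · left
        refine Finset.mem_filter.2 ⟨h', ?_⟩
        rintro ⟨hu', hr⟩
        exact hv'' ⟨hv', hr.trans (SimpleGraph.Adj.reachable
          (show (G.induce (U : Set V)).Adj ⟨u, hu'⟩ ⟨v, hv'⟩ from hvu.symm))⟩
      · exact Or.inr h'
    have := hmin U2 (hs2.trans hUW) hg
    omega
  · have hg : Good G bag M W U1 := by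
      refine ⟨h, x, ?_⟩
      intro v hv u hu hvu
      obtain ⟨hv', hv'', hr⟩ := Finset.mem_filter.1 hv
      rcases hx v hv' u hu hvu with h' | h'
      · left
        refine Finset.mem_filter.2 ⟨h', h', hr.trans (SimpleGraph.Adj.reachable
          (show (G.induce (U : Set V)).Adj ⟨v, hv''⟩ ⟨u, h'⟩ from hvu))⟩
      · exact Or.inr h'
    have := hmin U1 (hs1.trans hUW) hg
    omega

end ItD14

open ItD14

/-- D14: pieces of moderate size with a small boundary. -/
theorem D14 (hS2a : PS2a) (hS2b : PS2b) : PD14 := by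
  intro V _ G w M W htw hwM hMW
  classical
  obtain ⟨T, t, bag, ht, hc, he, hb⟩ := htw
  obtain ⟨x0⟩ : Nonempty T := ht.1.nonempty
  have hWg : Good G bag M W W := ⟨hMW, x0, fun v _ u hu _ => Or.inl hu⟩
  obtain ⟨U, hU, hmin⟩ := Finset.exists_min_image
    (W.powerset.filter fun U => Good G bag M W U) Finset.card
    ⟨W, Finset.mem_filter.2 ⟨Finset.mem_powerset_self W, hWg⟩⟩
  obtain ⟨hUW, hUg⟩ := Finset.mem_filter.1 hU
  rw [Finset.mem_powerset] at hUW
  have hmin' : ∀ U' : Finset V, U' ⊆ W → Good G bag M W U' → U.card ≤ U'.card :=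
    fun U' h1 h2 => hmin U' (Finset.mem_filter.2 ⟨Finset.mem_powerset.2 h1, h2⟩)
  have hUg' := hUg
  obtain ⟨h1, x, hx⟩ := hUg
  have hsmall : U.card ≤ 2 * M := by
    by_contra hbig
    have hcon := conn G bag M W U hUW hUg' (by omega) hmin'
    have hne : U.Nonempty := Finset.card_pos.1 (by omega)
    obtain ⟨v0, hv0⟩ := hne
    obtain ⟨y, hy⟩ := hS2a
      (ι := Option {u : V // u ∈ W ∧ u ∉ U ∧ ∃ v ∈ U, G.Adj v u}) t ht
      (fun o => match o with
        | none => {z | (bag z ∩ (U : Set V)).Nonempty}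
        | some u => {z | u.1 ∈ bag z})
      (by
        rintro (_ | u)
        · exact hS2b G t bag hc he _ hcon
        · exact hc u.1)
      (by
        rintro (_ | ⟨u, huW, huU, v, hv, hvu⟩) (_ | ⟨u', huW', huU', v', hv', hvu'⟩)
        · obtain ⟨z, hz⟩ := (hc v0).nonempty
          exact ⟨z, ⟨v0, hz, hv0⟩, ⟨v0, hz, hv0⟩⟩
        · obtain ⟨z, hz1, hz2⟩ := he v' u' hvu'
          exact ⟨z, ⟨v', hz1, hv'⟩, hz2⟩
        · obtain ⟨z, hz1, hz2⟩ := he v u hvu
          exact ⟨z, hz2, ⟨v, hz1, hv⟩⟩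
        · refine ⟨x, ?_, ?_⟩
          · rcases hx v hv u huW hvu with h | h
            · exact absurd h huU
            · exact h
          · rcases hx v' hv' u' huW' hvu' with h | h
            · exact absurd h huU'
            · exact h)
    have hy0 := hy none
    obtain ⟨v1, hv1, hv1'⟩ := hy0
    have hcard : (U.filter fun u => u ∈ bag y).card + (U.filter fun u => ¬ u ∈ bag y).card =
        U.card := Finset.card_filter_add_card_filter_not _
    have h2 := card_bag (bag y) w (hb y) U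
    have h3 : 0 < (U.filter fun u => u ∈ bag y).card :=
      Finset.card_pos.2 ⟨v1, Finset.mem_filter.2 ⟨hv1', hv1⟩⟩
    have hg : Good G bag M W (U.filter fun u => ¬ u ∈ bag y) := by
      refine ⟨by omega, y, ?_⟩
      intro v hv u hu hvu
      obtain ⟨hv', -⟩ := Finset.mem_filter.1 hv
      by_cases hu' : u ∈ U
      · by_cases huy : u ∈ bag y
        · exact Or.inr huy
        · exact Or.inl (Finset.mem_filter.2 ⟨hu', huy⟩)
      · exact Or.inr (hy (some ⟨u, hu, hu', v, hv', hvu⟩))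
    have := hmin' _ ((Finset.filter_subset _ _).trans hUW) hg
    omega
  refine ⟨U, hUW, W.filter fun u => u ∈ bag x, Finset.filter_subset _ _, h1, hsmall,
    card_bag (bag x) w (hb x) W, ?_⟩
  intro v hv u hu hvu
  rcases hx v hv u hu hvu with h | h
  · exact Or.inl h
  · exact Or.inr (Finset.mem_filter.2 ⟨hu, h⟩)

end Pool.Agent.PHer
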