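import Pool.Agent.Work.MP_cfa43e_lc.Her.Stmts

/-!
# Sparse induced subgraphs of graphs without bicliques: definitions and items

Every item is a `Prop` `PDn`; it is to be proved as `theorem Dn : PDn` (or
`theorem Dn (h : PDm) ... : PDn` if it uses other items) in the file `Her/Dn.lean`.
-/

set_option autoImplicit false

namespace Pool.Agent.PHer

open Pool.Agent.PEmb Pool.Agent.PReg

open Classical in
/-- The number of neighbours of `v` in `S`. -/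
noncomputable def dn {V : Type} (G : SimpleGraph V) (S : Finset V) (v : V) : ℕ :=
  (S.filter fun u => G.Adj v u).card

/-- The number of ordered pairs of adjacent vertices in `S`. -/
noncomputable def e2 {V : Type} (G : SimpleGraph V) (S : Finset V) : ℕ := ∑ v ∈ S, dn G S v

/-- `G` has no complete bipartite subgraph with `t + t` vertices. -/
def NoBic {V : Type} (t : ℕ) (G : SimpleGraph V) : Prop :=
  ∀ A B : Finset V, A.card = t → B.card = t → ¬ ∀ a ∈ A, ∀ b ∈ B, G.Adj a b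

open Classical in
/-- The number of neighbours of `v` in `S` which come later in the order `o`. -/
noncomputable def dout {V : Type} (G : SimpleGraph V) (o : V → ℕ) (S : Finset V) (v : V) : ℕ :=
  (S.filter fun u => G.Adj v u ∧ o v < o u).card

/-- `c` is a cycle of length `j`. -/
def CycSeq {V : Type} (G : SimpleGraph V) (j : ℕ) (c : Fin j → V) : Prop :=
  Function.Injective c ∧ (∀ a b : Fin j, b.1 = a.1 + 1 → G.Adj (c a) (c b)) ∧
    ∀ a b : Fin j, a.1 + 1 = j → b.1 = 0 → G.Adj (c a) (c b)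

/-! ## Degenerate orders -/

/-- D1: a densest core and a degenerate order. -/
def PD1 : Prop := ∀ {V : Type} [Finite V] (G : SimpleGraph V) (δ : ℕ) (U0 : Finset V),
  U0.Nonempty → (∀ v ∈ U0, δ ≤ dn G U0 v) → ∃ (U : Finset V) (k : ℕ) (o : V → ℕ), U.Nonempty ∧
    δ ≤ k ∧ (∀ v ∈ U, k ≤ dn G U v) ∧ (∀ u ∈ U, ∀ v ∈ U, o u = o v → u = v) ∧
    ∀ v ∈ U, dout G o U v ≤ k

/-- D2: the number of edges. -/
def PD2 : Prop := ∀ {V : Type} (G : SimpleGraph V) (k : ℕ) (o : V → ℕ) (T : Finset V),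
  (∀ u ∈ T, ∀ v ∈ T, o u = o v → u = v) → (∀ v ∈ T, dout G o T v ≤ k) → e2 G T ≤ 2 * k * T.card

/-- D3: the dichotomy (uses D2). -/
def PD3 : Prop := ∀ {V : Type} (G : SimpleGraph V) (k L : ℕ) (o : V → ℕ) (U : Finset V),
  1 ≤ k → 4 ≤ L → U.Nonempty → (∀ v ∈ U, k ≤ dn G U v) →
  (∀ u ∈ U, ∀ v ∈ U, o u = o v → u = v) → (∀ v ∈ U, dout G o U v ≤ k) →
  (∃ M ⊆ U, M.Nonempty ∧ (∀ v ∈ M, dn G M v ≤ L * k) ∧ k * M.card ≤ 8 * e2 G M) ∨
  ∃ X ⊆ U, ∃ Y ⊆ U, X.Nonempty ∧ Disjoint X Y ∧ (∀ x ∈ X, dn G U x ≤ 4 * k) ∧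
    (∀ x ∈ X, k ≤ 2 * dn G Y x) ∧ L * Y.card ≤ 8 * X.card

/-- D4: cleaning of a bipartite graph. -/
def PD4 : Prop := ∀ {V : Type} (G : SimpleGraph V) (X Y : Finset V) (a b : ℕ),
  a * X.card + b * Y.card < ∑ x ∈ X, dn G Y x → ∃ X' ⊆ X, ∃ Y' ⊆ Y, X'.Nonempty ∧ Y'.Nonempty ∧
    (∀ x ∈ X', a ≤ dn G Y' x) ∧ ∀ y ∈ Y', b ≤ dn G X' y

/-- D5: a subset of large minimum degree. -/
def PD5 : Prop := ∀ {V : Type} (G : SimpleGraph V) (S : Finset V) (a : ℕ),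
  2 * a * S.card < e2 G S → ∃ S' ⊆ S, S'.Nonempty ∧ ∀ v ∈ S', a + 1 ≤ dn G S' v

/-- D6: a large independent set. -/
def PD6 : Prop := ∀ {V : Type} (G : SimpleGraph V) (X : Finset V) (Δ : ℕ),
  (∀ x ∈ X, dn G X x ≤ Δ) → ∃ X' ⊆ X, (∀ x ∈ X', ∀ y ∈ X', ¬ G.Adj x y) ∧
    X.card ≤ (Δ + 1) * X'.card

open Classical in
/-- D7: the neighbourhoods of `m` vertices cover many vertices. -/
def PD7 : Prop := ∀ {V : Type} (G : SimpleGraph V) (t a : ℕ) (R Y : Finset V), NoBic t G →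
  (∀ x ∈ R, a ≤ dn G Y x) →
    R.card * a ≤ t * (Y.filter fun y => ∃ x ∈ R, G.Adj x y).card +
      R.card * (t * R.card.choose t)

open Classical in
/-- D8: random subsets. -/
def PD8 : Prop := ∀ {V : Type} [Fintype V] (p : ℝ), 0 ≤ p → p ≤ 1 → ∀ {ι : Type}
  (J : Finset ι) (c : ι → ℝ) (A : ι → Finset V), 0 < ∑ i ∈ J, c i * p ^ (A i).card →
    ∃ R : Finset V, 0 < ∑ i ∈ J.filter (fun i => A i ⊆ R), c i

/-! ## The almost regular case -/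

open Classical in
/-- D9: few edges in graphs without bicliques. -/
def PD9 : Prop := ∀ t m : ℕ, ∃ Δ0 : ℕ, ∀ {V : Type} (G : SimpleGraph V) (Δ : ℕ)
  (A B : Finset V), Δ0 ≤ Δ → NoBic t G → A.card ≤ Δ → B.card ≤ Δ →
    m * ((A ×ˢ B).filter fun p => G.Adj p.1 p.2).card ≤ Δ ^ 2

open Classical in
/-- D10: the number of cycles. -/
def PD10 : Prop := ∀ {V : Type} [Fintype V] (G : SimpleGraph V) (M : Finset V) (Δ z j : ℕ),
  3 ≤ j → (∀ v ∈ M, dn G M v ≤ Δ) →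
  (∀ a ∈ M, ∀ b ∈ M, ((M ×ˢ M).filter fun p => G.Adj a p.1 ∧ G.Adj b p.2 ∧
    G.Adj p.1 p.2).card ≤ z) →
  (Finset.univ.filter fun c : Fin j → V => CycSeq G j c ∧ ∀ i, c i ∈ M).card ≤
    M.card * Δ ^ (j - 3) * z

open Classical in
/-- The number of cycles of length at most `h` in `R`. -/
noncomputable def nc {V : Type} [Fintype V] (G : SimpleGraph V) (h : ℕ) (R : Finset V) : ℕ :=
  ∑ j ∈ Finset.Icc 3 h, (Finset.univ.filter fun c : Fin j → V =>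
    CycSeq G j c ∧ ∀ i, c i ∈ R).card

open Classical in
/-- D11: removal of vertices of large degree and of short cycles (uses D5). -/
def PD11 : Prop := ∀ {V : Type} [Fintype V] (G : SimpleGraph V) (h D : ℕ) (R : Finset V),
  2 * (∑ v ∈ R.filter (fun v => D < dn G R v), dn G R v) + 2 * D * nc G h R + 8 * R.card <
    e2 G R →
  ∃ S ⊆ R, S.Nonempty ∧ (∀ v ∈ S, 4 ≤ dn G S v ∧ dn G S v ≤ D) ∧
    ∀ j, 3 ≤ j → j ≤ h → ∀ c : Fin j → V, (∀ i, c i ∈ S) → ¬ CycSeq G j c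

open Classical in
/-- D12: a random subset in the almost regular case (uses D8). -/
def PD12 : Prop := ∀ {V : Type} [Fintype V] (G : SimpleGraph V) (M : Finset V)
  (p : ℝ) (Δ D h : ℕ) (Z : ℝ), 0 < p → p ≤ 1 → 0 < D → 0 ≤ Z → (∀ v ∈ M, dn G M v ≤ Δ) →
  (∀ j, 3 ≤ j → j ≤ h → ((Finset.univ.filter fun c : Fin j → V =>
    CycSeq G j c ∧ ∀ i, c i ∈ M).card : ℝ) * p ^ j ≤ Z) →
  2 / D * (p ^ 2 + p ^ 3 * Δ) * e2 G M + 2 * D * (h * Z) + 8 * (p * M.card) <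
    p ^ 2 * e2 G M →
  ∃ R ⊆ M, 2 * (∑ v ∈ R.filter (fun v => D < dn G R v), dn G R v) + 2 * D * nc G h R +
    8 * R.card < e2 G R

/-- D13: the almost regular case (uses D9, D10, D11, D12). -/
def PD13 : Prop := ∀ t L : ℕ, ∃ D : ℕ, ∀ h : ℕ, ∃ k0 : ℕ, ∀ {V : Type} [Fintype V]
  (G : SimpleGraph V) (k : ℕ) (M : Finset V), k0 ≤ k → NoBic t G → M.Nonempty → (∀ v ∈ M, dn G M v ≤ L * k) →
  k * M.card ≤ 8 * e2 G M →
  ∃ S ⊆ M, S.Nonempty ∧ (∀ v ∈ S, 4 ≤ dn G S v ∧ dn G S v ≤ D) ∧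
    ∀ j, 3 ≤ j → j ≤ h → ∀ c : Fin j → V, (∀ i, c i ∈ S) → ¬ CycSeq G j c

/-! ## Tree width -/

/-- D14: pieces of moderate size with a small boundary (uses S2a, S2b of `Reg`). -/
def PD14 : Prop := ∀ {V : Type} [Finite V] (G : SimpleGraph V) (w M : ℕ) (W : Finset V),
  TreeWidthLE G w → w + 1 ≤ M → M ≤ W.card → ∃ U ⊆ W, ∃ X ⊆ W, M ≤ U.card ∧
    U.card ≤ 2 * M ∧ X.card ≤ w + 1 ∧ ∀ v ∈ U, ∀ u ∈ W, G.Adj v u → u ∈ U ∨ u ∈ X

/-- D15: a set of minimum degree at least two contains a cycle. -/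
def PD15 : Prop := ∀ {V : Type} (G : SimpleGraph V) (S : Finset V), S.Nonempty →
  (∀ v ∈ S, 2 ≤ dn G S v) → ∃ (j : ℕ) (c : Fin j → V), 3 ≤ j ∧ j ≤ S.card ∧ (∀ i, c i ∈ S) ∧
    CycSeq G j c

/-- D16: graphs of small tree width and minimum degree at least four contain short cycles
(uses D5, D14, D15). -/
def PD16 : Prop := ∀ {V : Type} [Finite V] (G : SimpleGraph V) (w : ℕ) (W : Finset V),
  TreeWidthLE G w → W.Nonempty → (∀ v ∈ W, 4 ≤ dn G W v) →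
    ∃ (j : ℕ) (c : Fin j → V), 3 ≤ j ∧ j ≤ 3 * w + 5 ∧ (∀ i, c i ∈ W) ∧ CycSeq G j c

/-- D17: tree width and the number of edges (uses S2a, S2b of `Reg`, D5). -/
def PD17 : Prop := ∀ {V : Type} [Finite V] (G : SimpleGraph V) (w : ℕ) (W : Finset V),
  TreeWidthLE G w → e2 G W ≤ 2 * w * W.card

/-! ## The unbalanced case -/

/-- D18: a balanced bipartite situation (uses D4, D6). -/
def PD18 : Prop := ∀ {V : Type} (G : SimpleGraph V) (k m : ℕ) (U X Y : Finset V), 8 ≤ k →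
  X ⊆ U → Y ⊆ U → X.Nonempty → (∀ x ∈ X, dn G U x ≤ 4 * k) → (∀ x ∈ X, k ≤ 2 * dn G Y x) →
  400 * m * Y.card ≤ 8 * X.card →
  ∃ X' ⊆ X, ∃ Y' ⊆ Y, X'.Nonempty ∧ Y'.Nonempty ∧ (∀ x ∈ X', ∀ y ∈ X', ¬ G.Adj x y) ∧
    (∀ x ∈ X', dn G Y' x ≤ 4 * k) ∧ (∀ x ∈ X', k ≤ 8 * dn G Y' x) ∧ ∀ y ∈ Y', m ≤ dn G X' y

/-- Two vertices of `Y'` without later neighbours in `Y'`, with a common neighbour in `X` which has
no further neighbour in `Y'`. -/
def Gd {V : Type} (G : SimpleGraph V) (o : V → ℕ) (X Y' : Finset V) (y y' : V) : Prop :=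
  y ∈ Y' ∧ y' ∈ Y' ∧ y ≠ y' ∧ (∀ u ∈ Y', G.Adj y u → ¬ o y < o u) ∧
    (∀ u ∈ Y', G.Adj y' u → ¬ o y' < o u) ∧
    ∃ x ∈ X, G.Adj x y ∧ G.Adj x y' ∧ ∀ u ∈ Y', G.Adj x u → u = y ∨ u = y'

open Classical in
/-- D19: a random subset in the unbalanced case (uses D2, D7, D8). -/
def PD19 : Prop := ∀ t s : ℕ, ∃ m k0 : ℕ, ∀ {V : Type} [Fintype V] (G : SimpleGraph V)
  (k : ℕ) (o : V → ℕ) (X Y : Finset V), k0 ≤ k → NoBic t G → Y.Nonempty → Disjoint X Y →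
  (∀ u ∈ Y, ∀ v ∈ Y, o u = o v → u = v) → (∀ v ∈ Y, dout G o Y v ≤ k) →
  (∀ x ∈ X, dn G Y x ≤ 4 * k) → (∀ x ∈ X, k ≤ 8 * dn G Y x) → (∀ y ∈ Y, m ≤ dn G X y) →
  ∃ Y' ⊆ Y, s * Y'.card < ((Y' ×ˢ Y').filter fun p => Gd G o X Y' p.1 p.2).card

open Classical in
/-- D20: from good pairs to an induced subgraph (uses D17, S6, S7, PGr, PE23 of the other
theorems). -/
def PD20 : Prop := ∀ K : ℕ, 2 ≤ K → ∃ s : ℕ, ∀ {V : Type} [Finite V] (G : SimpleGraph V)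
  (o : V → ℕ) (X Y' : Finset V), (∀ u ∈ Y', ∀ v ∈ Y', o u = o v → u = v) → Disjoint X Y' →
  (∀ x ∈ X, ∀ y ∈ X, ¬ G.Adj x y) →
  s * Y'.card < ((Y' ×ˢ Y').filter fun p => Gd G o X Y' p.1 p.2).card →
    ∃ S : Set V, (∀ v, dg (rs G S) v ≤ 3) ∧ ∃ B, Grid (rs G S) K B

/-! ## Conclusion -/

/-- D21: graphs without bicliques of large minimum degree contain induced subgraphs of degree at
most `3` with large grid minors (from the items above). -/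
def PD21 : Prop := ∀ t K : ℕ, ∃ δ : ℕ, ∀ {V : Type} [Finite V] (G : SimpleGraph V)
  (U0 : Finset V), NoBic t G → U0.Nonempty → (∀ v ∈ U0, δ ≤ dn G U0 v) →
    ∃ S : Set V, (∀ v, dg (rs G S) v ≤ 3) ∧ ∃ B, Grid (rs G S) K B

/-- D22: a code of an induced subgraph with a grid minor. -/
def PD22 : Prop := ∀ {V : Type} [Finite V] (G : SimpleGraph V) (S : Set V) (K : ℕ)
  (B : ℕ → ℕ → Set V), 2 ≤ K → (∀ v, dg (rs G S) v ≤ 3) → Grid (rs G S) K B →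
  ∃ (A : Code) (f : Fin A.length → V), Function.Injective f ∧
    (∀ x y, (graph A).Adj x y ↔ G.Adj (f x) (f y)) ∧
    (∀ v, ((graph A).neighborSet v).ncard ≤ 3) ∧ ∃ B', Grid (graph A) K B'

/-- `G` has no induced complete bipartite subgraph with `t + t` vertices. -/
def NoIBic {V : Type} (t : ℕ) (G : SimpleGraph V) : Prop :=
  ∀ A B : Finset V, A.card = t → B.card = t → (∀ a ∈ A, ∀ a' ∈ A, ¬ G.Adj a a') →
    (∀ b ∈ B, ∀ b' ∈ B, ¬ G.Adj b b') → ¬ ∀ a ∈ A, ∀ b ∈ B, G.Adj a b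

/-- D23: bicliques, induced bicliques and cliques. -/
def PD23 : Prop := ∀ s t : ℕ, ∃ T : ℕ, ∀ {V : Type} (G : SimpleGraph V), ¬ Kq s G →
  NoIBic t G → NoBic T G

end Pool.Agent.PHer
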