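import Pool.Agent.Work.MP_cfa43e_lc.Her.Stmts

/-!
# Induced grid minors: definitions and items

Every item is a `Prop` `PHn`; it is to be proved as `theorem Hn : PHn` (or
`theorem Hn (h : PHm) ... : PHn` if it uses other items) in the file `Her/Hn.lean`.
-/

set_option autoImplicit false

namespace Pool.Agent.PHer

open Pool.Agent.PEmb Pool.Agent.PReg

/-- `G` has the `K × K` grid as an induced minor: a grid minor such that branch sets of different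
points are adjacent only if the points are neighbours in the grid. -/
structure IGrid {V : Type} (G : SimpleGraph V) (K : ℕ) (B : ℕ → ℕ → Set V) : Prop where
  grid : Grid G K B
  ind : ∀ x y x' y', x < K → y < K → x' < K → y' < K → (x, y) ≠ (x', y') →
    ∀ a ∈ B x y, ∀ b ∈ B x' y', G.Adj a b →
      (x = x' ∧ (y + 1 = y' ∨ y' + 1 = y)) ∨ (y = y' ∧ (x + 1 = x' ∨ x' + 1 = x))

/-- H1: geodesics. -/
def PH1 : Prop := ∀ {V : Type} [Finite V] (G : SimpleGraph V) (R : Set V),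
  (G.induce R).Connected → ∀ a ∈ R, ∀ b ∈ R, ∃ J ⊆ R, a ∈ J ∧ b ∈ J ∧ (G.induce J).Connected ∧
    ∀ v ∈ R, {u | u ∈ J ∧ G.Adj v u}.ncard ≤ 3

/-- H2: a connected set of bounded degree through four vertices (uses H1). -/
def PH2 : Prop := ∀ {V : Type} [Finite V] (G : SimpleGraph V) (R : Set V) (t : ℕ → V),
  (G.induce R).Connected → (∀ i, i < 4 → t i ∈ R) → ∃ J ⊆ R, (∀ i, i < 4 → t i ∈ J) ∧
    (G.induce J).Connected ∧ ∀ v ∈ R, {u | u ∈ J ∧ G.Adj v u}.ncard ≤ 9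

/-- H3: an induced path through a connected set `C` from the neighbours of `A` to the neighbours
of `A'`. -/
def PH3 : Prop := ∀ {V : Type} [Finite V] (G : SimpleGraph V) (A A' C : Set V),
  (G.induce C).Connected → (∃ u ∈ C, ∃ v ∈ A, G.Adj u v) → (∃ u ∈ C, ∃ v ∈ A', G.Adj u v) →
  (∀ u ∈ C, ∀ v ∈ A, ∀ v' ∈ A', ¬ (G.Adj u v ∧ G.Adj u v')) →
  ∃ (D : Set V) (c c' : V), D ⊆ C ∧ c ∈ D ∧ c' ∈ D ∧ c ≠ c' ∧ (∃ v ∈ A, G.Adj c v) ∧
    (∃ v ∈ A', G.Adj c' v) ∧ (∀ u ∈ D, ∀ v ∈ A, G.Adj u v → u = c) ∧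
    (∀ u ∈ D, ∀ v ∈ A', G.Adj u v → u = c') ∧ (∀ v ∈ D, {u | u ∈ D ∧ G.Adj v u}.ncard ≤ 2) ∧
    (G.induce (D \ {c'})).Connected ∧ ∃ u ∈ D, u ≠ c' ∧ G.Adj u c'

/-- A system of `k * k` hubs joined by chains. -/
structure HubSys {V : Type} (G : SimpleGraph V) (k : ℕ) (Hb : ℕ → ℕ → Set V)
    (C : Bool → ℕ → ℕ → Set V) : Prop where
  hconn : ∀ i j, i < k → j < k → (G.induce (Hb i j)).Connected
  cconn : ∀ o i j, Ex k o i j → (G.induce (C o i j)).Connected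
  hh : ∀ i j i' j', i < k → j < k → i' < k → j' < k → (i, j) ≠ (i', j') →
    ∀ u ∈ Hb i j, ∀ v ∈ Hb i' j', u ≠ v ∧ ¬ G.Adj u v
  cc : ∀ o i j o' i' j', Ex k o i j → Ex k o' i' j' → (o, i, j) ≠ (o', i', j') →
    ∀ u ∈ C o i j, ∀ v ∈ C o' i' j', u ≠ v ∧ ¬ G.Adj u v
  ch : ∀ o i j i' j', Ex k o i j → i' < k → j' < k → ∀ u ∈ C o i j, ∀ v ∈ Hb i' j', u ≠ v ∧
    (G.Adj u v → (i', j') = (i, j) ∨ (i', j') = nx o i j)
  c0 : ∀ o i j, Ex k o i j → ∃ u ∈ C o i j, ∃ v ∈ Hb i j, G.Adj u v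
  c1 : ∀ o i j, Ex k o i j → ∃ u ∈ C o i j, ∃ v ∈ Hb (nx o i j).1 (nx o i j).2, G.Adj u v
  cno : ∀ o i j, Ex k o i j → ∀ u ∈ C o i j, ∀ v ∈ Hb i j, ∀ v' ∈ Hb (nx o i j).1 (nx o i j).2,
    ¬ (G.Adj u v ∧ G.Adj u v')

/-- H4: hubs and chains in an induced grid minor. -/
def PH4 : Prop := ∀ {V : Type} (G : SimpleGraph V) (k : ℕ) (B : ℕ → ℕ → Set V),
  IGrid G (4 * k) B → ∃ Hb C, HubSys G k Hb C

/-- H5: an induced subgraph of bounded degree with a grid minor (uses H2, H3). -/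
def PH5 : Prop := ∀ {V : Type} [Finite V] (G : SimpleGraph V) (k : ℕ) (Hb : ℕ → ℕ → Set V)
  (C : Bool → ℕ → ℕ → Set V), HubSys G k Hb C →
    ∃ S : Set V, (∀ v, dg (rs G S) v ≤ 11) ∧ ∃ B, Grid (rs G S) k B

end Pool.Agent.PHer
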