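import Mathlib
import Pool.Agent.Work.MP_cfa43e_lc.Her.StmtsD

set_option autoImplicit false

namespace Pool.Agent.PHer

open Pool.Agent.PEmb Pool.Agent.PReg

namespace ItD17

/-- `U` is a part of `S` whose outer neighbours lie in one bag. -/
def Good {V T : Type} (G : SimpleGraph V) (bag : T → Set V) (S U : Finset V) : Prop :=
  U.Nonempty ∧ U ⊆ S ∧ ∃ x, ∀ v ∈ U, ∀ u ∈ S, G.Adj v u → u ∈ U ∨ u ∈ bag x

theorem conn {V T : Type} (G : SimpleGraph V) (bag : T → Set V) (S U : Finset V)
    (hU : Good G bag S U) (hmin : ∀ U', Good G bag S U' → U.card ≤ U'.card) :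
    (G.induce (U : Set V)).Connected := by
  classical
  obtain ⟨⟨v0, hv0⟩, hUS, x, hx⟩ := hU
  haveI : Nonempty (U : Set V) := ⟨⟨v0, hv0⟩⟩
  refine ⟨?_⟩
  intro a b
  -- the set of vertices reachable from `a`
  let U' : Finset V := U.filter fun v => ∃ h : v ∈ (U : Set V), (G.induce (U : Set V)).Reachable a ⟨v, h⟩
  have hg : Good G bag S U' := by
    refine ⟨⟨a.1, Finset.mem_filter.mpr ⟨a.2, a.2, SimpleGraph.Reachable.refl _⟩⟩,
      (Finset.filter_subset _ _).trans hUS, x, ?_⟩
    intro v hv u hu hadj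
    obtain ⟨hvU, hvU', hr⟩ := Finset.mem_filter.mp hv
    rcases hx v hvU u hu hadj with h | h
    · left
      refine Finset.mem_filter.mpr ⟨h, h, hr.trans ?_⟩
      exact SimpleGraph.Adj.reachable (G := G.induce (U : Set V))
        (show (G.induce (U : Set V)).Adj ⟨v, hvU'⟩ ⟨u, h⟩ from hadj)
    · exact Or.inr h
  have h1 := hmin U' hg
  have h2 : U' = U := Finset.eq_of_subset_of_card_le (Finset.filter_subset _ _) h1
  have h3 : b.1 ∈ U' := by rw [h2]; exact b.2
  obtain ⟨_, _, hr⟩ := Finset.mem_filter.mp h3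
  exact hr

end ItD17

/-- D17: tree width and the number of edges. -/
theorem D17 (hS2a : PS2a) (hS2b : PS2b) (hD5 : PD5) : PD17 := by
  classical
  intro V _ G w W htw
  by_contra hcon
  push Not at hcon
  obtain ⟨S, hSW, hSne, hdeg⟩ := hD5 G W w hcon
  obtain ⟨T, t, bag, ht, hc, he, hb⟩ := htw
  obtain ⟨x0⟩ := ht.1.nonempty
  -- a minimal good set
  have hex : ∃ U, ItD17.Good G bag S U := ⟨S, hSne, subset_rfl, x0, fun v _ u hu _ => Or.inl hu⟩
  obtain ⟨U, hU, hmin⟩ : ∃ U, ItD17.Good G bag S U ∧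
      ∀ U', ItD17.Good G bag S U' → U.card ≤ U'.card := by
    obtain ⟨U, hU, hm⟩ := WellFounded.has_min (measure fun U : Finset V => U.card).wf
      {U | ItD17.Good G bag S U} hex
    exact ⟨U, hU, fun U' hU' => Nat.le_of_not_lt (hm U' hU')⟩
  have hconn := ItD17.conn G bag S U hU hmin
  obtain ⟨⟨v0, hv0⟩, hUS, x, hx⟩ := hU
  -- outer neighbours
  let N : Finset V := S.filter fun u => u ∉ U ∧ ∃ v ∈ U, G.Adj v u
  have hNx : ∀ u ∈ N, u ∈ bag x := by
    intro u hu
    obtain ⟨huS, huU, v, hv, hadj⟩ := Finset.mem_filter.mp hu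
    exact (hx v hv u huS hadj).resolve_left huU
  obtain ⟨y, hy⟩ := hS2a (ι := Option N) t ht
    (fun o => o.elim {z | (bag z ∩ (U : Set V)).Nonempty} (fun u => {z | u.1 ∈ bag z}))
    (by
      intro o
      rcases o with _ | u
      · exact hS2b G t bag hc he (U : Set V) hconn
      · exact hc u.1)
    (by
      have key : ∀ u : N, ({z | (bag z ∩ (U : Set V)).Nonempty} ∩ {z | u.1 ∈ bag z}).Nonempty := by
        intro u
        obtain ⟨huS, huU, v, hv, hadj⟩ := Finset.mem_filter.mp u.2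
        obtain ⟨z, hz1, hz2⟩ := he v u.1 hadj
        exact ⟨z, ⟨v, hz1, hv⟩, hz2⟩
      rintro (_ | u) (_ | u')
      · obtain ⟨z, hz⟩ := (hc v0).nonempty
        exact ⟨z, ⟨v0, hz, hv0⟩, ⟨v0, hz, hv0⟩⟩
      · exact key u'
      · have := key u
        rw [Set.inter_comm] at this
        exact this
      · exact ⟨x, hNx u.1 u.2, hNx u'.1 u'.2⟩)
  have hyU : (bag y ∩ (U : Set V)).Nonempty := hy none
  have hyN : ∀ u ∈ N, u ∈ bag y := fun u hu => hy (some ⟨u, hu⟩)
  -- `U ⊆ bag y`
  have hUy : ∀ v ∈ U, v ∈ bag y := by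
    by_contra h
    push Not at h
    obtain ⟨v1, hv1, hv1y⟩ := h
    have hg : ItD17.Good G bag S (U.filter fun v => v ∉ bag y) := by
      refine ⟨⟨v1, Finset.mem_filter.mpr ⟨hv1, hv1y⟩⟩, (Finset.filter_subset _ _).trans hUS,
        y, ?_⟩
      intro v hv u hu hadj
      have hvU := (Finset.mem_filter.mp hv).1
      by_cases huU : u ∈ U
      · by_cases huy : u ∈ bag y
        · exact Or.inr huy
        · exact Or.inl (Finset.mem_filter.mpr ⟨huU, huy⟩)
      · right
        exact hyN u (Finset.mem_filter.mpr ⟨hu, huU, v, hvU, hadj⟩)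
    have h1 := hmin _ hg
    obtain ⟨z, hz1, hz2⟩ := hyU
    have h2 : (U.filter fun v => v ∉ bag y).card < U.card := by
      apply Finset.card_lt_card
      rw [Finset.ssubset_iff_of_subset (Finset.filter_subset _ _)]
      exact ⟨z, hz2, fun h => (Finset.mem_filter.mp h).2 hz1⟩
    omega
  -- a vertex of small degree
  have h1 := hdeg v0 (hUS hv0)
  have h2 : ((insert v0 (S.filter fun u => G.Adj v0 u) : Finset V) : Set V) ⊆ bag y := by
    intro u hu
    rw [Finset.mem_coe, Finset.mem_insert, Finset.mem_filter] at hu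
    rcases hu with rfl | ⟨huS, hadj⟩
    · exact hUy u hv0
    · by_cases huU : u ∈ U
      · exact hUy u huU
      · exact hyN u (Finset.mem_filter.mpr ⟨huS, huU, v0, hv0, hadj⟩)
  have h3 := (Set.encard_le_encard h2).trans (hb y)
  rw [Set.encard_coe_eq_coe_finsetCard, Finset.card_insert_of_notMem (by simp)] at h3
  have h4 : (S.filter fun u => G.Adj v0 u).card + 1 ≤ w + 1 := by exact_mod_cast h3
  have h5 : dn G S v0 = (S.filter fun u => G.Adj v0 u).card := by
    unfold dn
    congr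
  omega

end Pool.Agent.PHer
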