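import Pool.Agent.Work.MP_cfa43e_lc.Her.StmtsD

/-!
# D20: from good pairs to an induced subgraph
-/

set_option autoImplicit false

namespace Pool.Agent.PHer

open Pool.Agent.PEmb Pool.Agent.PReg

namespace ItD20

variable {V : Type}

lemma gd_symm {G : SimpleGraph V} {o : V → ℕ} {X Y' : Finset V} {a b : V}
    (h : Gd G o X Y' a b) : Gd G o X Y' b a := by
  obtain ⟨h1, h2, h3, h4, h5, x, hx, hxa, hxb, hu⟩ := h
  exact ⟨h2, h1, h3.symm, h5, h4, x, hx, hxb, hxa, fun u hu1 hu2 => (hu u hu1 hu2).symm⟩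

/-- The graph of good pairs. -/
def GM (G : SimpleGraph V) (o : V → ℕ) (X Y' : Finset V) : SimpleGraph V where
  Adj a b := Gd G o X Y' a b
  symm := ⟨fun _ _ h => gd_symm h⟩
  loopless := ⟨fun _ h => h.2.2.1 rfl⟩

open Classical in
lemma e2_GM (G : SimpleGraph V) (o : V → ℕ) (X Y' : Finset V) :
    e2 (GM G o X Y') Y' = ((Y' ×ˢ Y').filter fun p => Gd G o X Y' p.1 p.2).card := by
  rw [Finset.card_filter, Finset.sum_product, e2]
  refine Finset.sum_congr rfl fun v _ => ?_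
  rw [dn, Finset.card_filter]
  refine Finset.sum_congr rfl fun u _ => ?_
  rfl

/-- Representatives of unordered pairs. -/
lemma exists_rep {G : SimpleGraph V} {o : V → ℕ} {X Y' : Finset V} {H : SimpleGraph V}
    (hH : H ≤ GM G o X Y') : ∃ rep : Sym2 V → V, ∀ a b, H.Adj a b →
      rep s(a, b) ∈ X ∧ G.Adj (rep s(a, b)) a ∧ G.Adj (rep s(a, b)) b ∧
        ∀ u ∈ Y', G.Adj (rep s(a, b)) u → u = a ∨ u = b := by
  classical
  have key : ∀ e : Sym2 V, ∃ x : V, ∀ a b, e = s(a, b) → H.Adj a b →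
      x ∈ X ∧ G.Adj x a ∧ G.Adj x b ∧ ∀ u ∈ Y', G.Adj x u → u = a ∨ u = b := by
    intro e
    induction e using Sym2.ind with
    | _ c d =>
      by_cases h : H.Adj c d
      · obtain ⟨-, -, -, -, -, x, hx, hxa, hxb, hu⟩ := hH h
        refine ⟨x, fun a b hab _ => ?_⟩
        rcases Sym2.eq_iff.1 hab with ⟨rfl, rfl⟩ | ⟨rfl, rfl⟩
        · exact ⟨hx, hxa, hxb, hu⟩
        · exact ⟨hx, hxb, hxa, fun u h1 h2 => (hu u h1 h2).symm⟩
      · refine ⟨c, fun a b hab hab2 => ?_⟩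
        rcases Sym2.eq_iff.1 hab with ⟨rfl, rfl⟩ | ⟨rfl, rfl⟩
        · exact absurd hab2 h
        · exact absurd hab2.symm h
  choose rep hrep using key
  exact ⟨rep, fun a b h => hrep _ a b rfl h⟩

section
variable {G : SimpleGraph V} {o : V → ℕ} {X Y' : Finset V} {H : SimpleGraph V} {rep : Sym2 V → V}

lemma rep_inj (hH : H ≤ GM G o X Y')
    (hrep : ∀ a b, H.Adj a b → rep s(a, b) ∈ X ∧ G.Adj (rep s(a, b)) a ∧ G.Adj (rep s(a, b)) b ∧
        ∀ u ∈ Y', G.Adj (rep s(a, b)) u → u = a ∨ u = b) {a b c d : V} (hab : H.Adj a b)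
    (hcd : H.Adj c d) (h : rep s(a, b) = rep s(c, d)) :
    (a = c ∧ b = d) ∨ (a = d ∧ b = c) := by
  obtain ⟨-, h1, h2, -⟩ := hrep a b hab
  obtain ⟨-, -, -, h3⟩ := hrep c d hcd
  rw [h] at h1 h2
  have ha : a ∈ Y' := (hH hab).1
  have hb : b ∈ Y' := (hH hab).2.1
  have hne : a ≠ b := hab.ne
  rcases h3 a ha h1 with e1 | e1 <;> rcases h3 b hb h2 with e2 | e2
  · exact absurd (e1.trans e2.symm) hne
  · exact Or.inl ⟨e1, e2⟩
  · exact Or.inr ⟨e1, e2⟩
  · exact absurd (e1.trans e2.symm) hne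

/-- The choice of an end for every representative. -/
lemma exists_pi (hH : H ≤ GM G o X Y')
    (hrep : ∀ a b, H.Adj a b → rep s(a, b) ∈ X ∧ G.Adj (rep s(a, b)) a ∧ G.Adj (rep s(a, b)) b ∧
        ∀ u ∈ Y', G.Adj (rep s(a, b)) u → u = a ∨ u = b) :
    ∃ π : V → V, (∀ c d, H.Adj c d → π (rep s(c, d)) = c ∨ π (rep s(c, d)) = d) ∧
      ∀ r, (¬ ∃ c d, H.Adj c d ∧ rep s(c, d) = r) → π r = r := by
  classical
  have key : ∀ r : V, ∃ a : V, (∀ c d, H.Adj c d → rep s(c, d) = r → a = c ∨ a = d) ∧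
      ((¬ ∃ c d, H.Adj c d ∧ rep s(c, d) = r) → a = r) := by
    intro r
    by_cases h : ∃ c d, H.Adj c d ∧ rep s(c, d) = r
    · obtain ⟨c, d, h1, h2⟩ := h
      refine ⟨c, fun c' d' h3 h4 => ?_, fun h5 => absurd ⟨c, d, h1, h2⟩ h5⟩
      rcases rep_inj hH hrep h1 h3 (h2.trans h4.symm) with ⟨e, -⟩ | ⟨e, -⟩
      · exact Or.inl e
      · exact Or.inr e
    · exact ⟨r, fun c d h1 h2 => absurd ⟨c, d, h1, h2⟩ h, fun _ => rfl⟩
  choose π hπ1 hπ2 using key
  exact ⟨π, fun c d h => hπ1 _ c d h rfl, hπ2⟩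

end

end ItD20

open ItD20

open Classical in
/-- **D20.** -/
theorem D20 (hD17 : PD17) (hS6 : PS6) (hS7 : PS7) (hG : PGr) (hE : PE23) : PD20 := by
  intro K hK
  obtain ⟨K1, hK1⟩ := hE K
  obtain ⟨w1, hw1⟩ := hG K1
  refine ⟨2 * w1, ?_⟩
  intro V _ G o X Y' hinj hdis hind hcard
  -- the graph of good pairs
  have htw : ¬ TreeWidthLE (GM G o X Y') w1 := by
    intro h
    have h1 := hD17 (GM G o X Y') w1 Y' h
    rw [e2_GM] at h1
    exact absurd hcard (not_lt.2 h1)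
  obtain ⟨B0, hB0⟩ := hw1 _ htw
  obtain ⟨P, hP, hPat⟩ := hK1 _ _ hB0
  obtain ⟨H, hH, hdeg, B, hB⟩ := hS6 _ K P hP hPat
  obtain ⟨rep, hrep⟩ := exists_rep hH
  obtain ⟨π, hπ1, hπ2⟩ := exists_pi hH hrep
  have hXY : ∀ x ∈ X, x ∉ Y' := fun x hx hy => Finset.disjoint_left.1 hdis hx hy
  have hπY : ∀ a ∈ Y', π a = a := by
    intro a ha
    refine hπ2 a ?_
    rintro ⟨c, d, h1, h2⟩
    exact hXY _ (h2 ▸ (hrep c d h1).1) ha
  have hHY : ∀ {a b}, H.Adj a b → a ∈ Y' := fun h => (hH h).1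
  set J : V → Set V := fun a => {x | a ∈ Y' ∧ (x = a ∨ ∃ c d, H.Adj c d ∧ x = rep s(c, d) ∧ π x = a)}
    with hJ
  have hJπ : ∀ a, J a ⊆ π ⁻¹' {a} := by
    rintro a x ⟨ha, rfl | ⟨c, d, -, -, h⟩⟩
    · exact hπY _ ha
    · exact h
  -- a member of `J a` different from `a` is adjacent to `a`
  have hJadj : ∀ a x, x ∈ J a → x ≠ a → G.Adj x a := by
    rintro a x ⟨-, rfl | ⟨c, d, h1, h2, h3⟩⟩ hne
    · exact absurd rfl hne
    · subst h2
      obtain ⟨-, h4, h5, -⟩ := hrep c d h1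
      rcases hπ1 c d h1 with e | e
      · rw [← h3, e]; exact h4
      · rw [← h3, e]; exact h5
  have hconn : ∀ a b, H.Adj a b → (G.induce (J a)).Connected := by
    intro a b hab
    have haJ : a ∈ J a := ⟨hHY hab, Or.inl rfl⟩
    have : Nonempty (J a) := ⟨⟨a, haJ⟩⟩
    have h0 : ∀ x : J a, (G.induce (J a)).Reachable x ⟨a, haJ⟩ := by
      rintro ⟨x, hx⟩
      by_cases e : x = a
      · subst e
        exact SimpleGraph.Reachable.refl _
      · have h1 : (G.induce (J a)).Adj ⟨x, hx⟩ ⟨a, haJ⟩ := hJadj a x hx e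
        exact h1.reachable
    exact ⟨fun x y => (h0 x).trans (h0 y).symm⟩
  have hedge : ∀ a b, H.Adj a b → ∃ x ∈ J a, ∃ y ∈ J b, G.Adj x y := by
    intro a b hab
    obtain ⟨-, h1, h2, -⟩ := hrep a b hab
    rcases hπ1 a b hab with e | e
    · exact ⟨rep s(a, b), ⟨hHY hab, Or.inr ⟨a, b, hab, rfl, e⟩⟩, b, ⟨hHY hab.symm, Or.inl rfl⟩, h2⟩
    · exact ⟨a, ⟨hHY hab, Or.inl rfl⟩, rep s(a, b), ⟨hHY hab.symm, Or.inr ⟨a, b, hab, rfl, e⟩⟩,
        h1.symm⟩
  obtain ⟨B', hB'⟩ := hS7 G π H J K B hJπ hconn hedge hK hB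
  refine ⟨{x | ∃ a b, H.Adj a b ∧ x ∈ J a}, ?_, B', hB'⟩
  -- degrees
  have hmem : ∀ x ∈ {x | ∃ a b, H.Adj a b ∧ x ∈ J a}, (∃ b, H.Adj x b) ∨
      ∃ c d, H.Adj c d ∧ x = rep s(c, d) := by
    rintro x ⟨a, b, hab, -, rfl | ⟨c, d, h1, h2, -⟩⟩
    · exact Or.inl ⟨b, hab⟩
    · exact Or.inr ⟨c, d, h1, h2⟩
  intro v
  show ((rs G {x | ∃ a b, H.Adj a b ∧ x ∈ J a}).neighborSet v).ncard ≤ 3
  by_cases hv : v ∈ {x | ∃ a b, H.Adj a b ∧ x ∈ J a}
  · rcases hmem v hv with ⟨b, hvb⟩ | ⟨c, d, hcd, rfl⟩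
    · -- a vertex of `Y'`
      have hsub : (rs G {x | ∃ a b, H.Adj a b ∧ x ∈ J a}).neighborSet v ⊆
          (fun w => rep s(v, w)) '' (H.neighborSet v) := by
        rintro u ⟨hadj, -, hu⟩
        have hvY : v ∈ Y' := hHY hvb
        rcases hmem u hu with ⟨b', hub⟩ | ⟨c, d, hcd, rfl⟩
        · exfalso
          have huY : u ∈ Y' := hHY hub
          have h1 : ¬ o v < o u := (hH hvb).2.2.2.1 u huY hadj
          have h2 : ¬ o u < o v := (hH hub).2.2.2.1 v hvY hadj.symm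
          exact hadj.ne (hinj v hvY u huY (by omega))
        · obtain ⟨-, -, -, h4⟩ := hrep c d hcd
          rcases h4 v hvY hadj.symm with e | e
          · subst e
            exact ⟨d, hcd, rfl⟩
          · subst e
            exact ⟨c, hcd.symm, by simp only [Sym2.eq_swap]⟩
      have h3 : (H.neighborSet v).ncard ≤ 3 := by
        have h := hdeg v
        have h' : (H.neighborSet v).encard ≤ ((3 : ℕ) : ℕ∞) := by simpa using h
        exact (Set.encard_le_coe_iff_finite_ncard_le.1 h').2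
      calc ((rs G {x | ∃ a b, H.Adj a b ∧ x ∈ J a}).neighborSet v).ncard
          ≤ ((fun w => rep s(v, w)) '' (H.neighborSet v)).ncard :=
            Set.ncard_le_ncard hsub (Set.toFinite _)
        _ ≤ (H.neighborSet v).ncard := Set.ncard_image_le (Set.toFinite _)
        _ ≤ 3 := h3
    · -- a representative
      have hsub : (rs G {x | ∃ a b, H.Adj a b ∧ x ∈ J a}).neighborSet (rep s(c, d)) ⊆ {c, d} := by
        rintro u ⟨hadj, -, hu⟩
        obtain ⟨hX, -, -, h4⟩ := hrep c d hcd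
        rcases hmem u hu with ⟨b', hub⟩ | ⟨c', d', hcd', rfl⟩
        · exact h4 u (hHY hub) hadj
        · exact absurd hadj (hind _ hX _ (hrep c' d' hcd').1)
      calc ((rs G {x | ∃ a b, H.Adj a b ∧ x ∈ J a}).neighborSet (rep s(c, d))).ncard
          ≤ ({c, d} : Set V).ncard := Set.ncard_le_ncard hsub (Set.toFinite _)
        _ ≤ ({d} : Set V).ncard + 1 := Set.ncard_insert_le c {d}
        _ = 2 := by rw [Set.ncard_singleton]
        _ ≤ 3 := by norm_num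
  · have h0 : (rs G {x | ∃ a b, H.Adj a b ∧ x ∈ J a}).neighborSet v = ∅ := by
      ext u
      constructor
      · rintro ⟨-, h, -⟩
        exact absurd h hv
      · intro h
        exact absurd h (Set.notMem_empty u)
    rw [h0, Set.ncard_empty]
    norm_num

end Pool.Agent.PHer
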