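import Pool.Agent.Work.MP_cfa43e_lc.Her.Stmts

/-!
# Item T1 : tree width and simplicial vertices of degree two
-/

set_option autoImplicit false

namespace Pool.Agent.PHer

open Pool.Agent.PEmb Pool.Agent.PReg

namespace ItT1

variable {T : Type}

/-- a graph with one more leaf, attached to `x0` -/
def ext (t : SimpleGraph T) (x0 : T) : SimpleGraph (Option T) where
  Adj a b := (∃ x y, t.Adj x y ∧ a = some x ∧ b = some y) ∨ (a = none ∧ b = some x0) ∨
    (a = some x0 ∧ b = none)
  symm := ⟨by
    rintro a b (⟨x, y, h, h1, h2⟩ | ⟨h1, h2⟩ | ⟨h1, h2⟩)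
    · exact Or.inl ⟨y, x, h.symm, h2, h1⟩
    · exact Or.inr (Or.inr ⟨h2, h1⟩)
    · exact Or.inr (Or.inl ⟨h2, h1⟩)⟩
  loopless := ⟨by
    rintro a (⟨x, y, h, h1, h2⟩ | ⟨h1, h2⟩ | ⟨h1, h2⟩)
    · rw [h1] at h2
      exact h.ne (Option.some.inj h2)
    · rw [h1] at h2
      exact absurd h2.symm (Option.some_ne_none _)
    · rw [h1] at h2
      exact absurd h2 (Option.some_ne_none _)⟩

theorem ext_some {t : SimpleGraph T} {x0 x y : T} : (ext t x0).Adj (some x) (some y) ↔
    t.Adj x y := by
  constructor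
  · rintro (⟨x', y', h, h1, h2⟩ | ⟨h1, h2⟩ | ⟨h1, h2⟩)
    · rw [Option.some.inj h1, Option.some.inj h2]
      exact h
    · exact absurd h1 (Option.some_ne_none _)
    · exact absurd h2 (Option.some_ne_none _)
  · intro h
    exact Or.inl ⟨x, y, h, rfl, rfl⟩

theorem ext_none {t : SimpleGraph T} {x0 : T} {a : Option T} (h : (ext t x0).Adj none a) :
    a = some x0 := by
  rcases h with ⟨x, y, h, h1, h2⟩ | ⟨h1, h2⟩ | ⟨h1, h2⟩
  · exact absurd h1.symm (Option.some_ne_none _)
  · exact h2
  · exact absurd h1.symm (Option.some_ne_none _)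

theorem ext_none_adj (t : SimpleGraph T) (x0 : T) : (ext t x0).Adj none (some x0) :=
  Or.inr (Or.inl ⟨rfl, rfl⟩)

theorem conn_ext (t : SimpleGraph T) (x0 : T) (S : Set T) (S' : Set (Option T))
    (hS : (t.induce S).Connected) (h1 : ∀ x, some x ∈ S' ↔ x ∈ S) (h2 : none ∈ S' → x0 ∈ S) :
    ((ext t x0).induce S').Connected := by
  obtain ⟨s0⟩ := hS.nonempty
  let f : t.induce S →g (ext t x0).induce S' :=
    { toFun := fun x => ⟨some x.1, (h1 x.1).2 x.2⟩
      map_rel' := fun {x y} h => by
        change (ext t x0).Adj (some x.1) (some y.1)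
        exact ext_some.2 h }
  have key : ∀ a : S', ((ext t x0).induce S').Reachable a (f s0) := by
    rintro ⟨a, ha⟩
    rcases a with _ | x
    · have hx0 := h2 ha
      have h3 : ((ext t x0).induce S').Adj ⟨none, ha⟩ (f ⟨x0, hx0⟩) := ext_none_adj t x0
      exact h3.reachable.trans ((hS.preconnected ⟨x0, hx0⟩ s0).map f)
    · exact (hS.preconnected ⟨x, (h1 x).1 ha⟩ s0).map f
  have : Nonempty S' := ⟨f s0⟩
  exact SimpleGraph.Connected.mk fun a b => (key a).trans (key b).symm

theorem ext_connected (t : SimpleGraph T) (x0 : T) (ht : t.Connected) :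
    (ext t x0).Connected := by
  let f : t →g ext t x0 :=
    { toFun := some
      map_rel' := fun {x y} h => ext_some.2 h }
  have key : ∀ a : Option T, (ext t x0).Reachable a (some x0) := by
    rintro (_ | x)
    · exact (ext_none_adj t x0).reachable
    · exact (ht.preconnected x x0).map f
  have : Nonempty (Option T) := ⟨none⟩
  exact SimpleGraph.Connected.mk fun a b => (key a).trans (key b).symm

theorem ext_acyclic (t : SimpleGraph T) (x0 : T) (ht : t.IsAcyclic) :
    (ext t x0).IsAcyclic := by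
  rw [SimpleGraph.isAcyclic_iff_free_cycleGraph] at ht ⊢
  intro n hn hc
  obtain ⟨m, rfl⟩ : ∃ m, n = m + 3 := ⟨n - 3, by omega⟩
  obtain ⟨φ⟩ := hc
  have hadj : ∀ i j : Fin (m + 3), (SimpleGraph.cycleGraph (m + 3)).Adj i j →
      (ext t x0).Adj (φ i) (φ j) := fun i j h => φ.toHom.map_rel h
  have hinj : ∀ i j : Fin (m + 3), φ i = φ j → i = j := fun i j h => φ.injective h
  have hnext : ∀ i : Fin (m + 3), (SimpleGraph.cycleGraph (m + 3)).Adj i (i + 1) := by
    intro i
    rw [SimpleGraph.cycleGraph_adj]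
    right
    abel
  have hprev : ∀ i : Fin (m + 3), (SimpleGraph.cycleGraph (m + 3)).Adj i (i - 1) := by
    intro i
    rw [SimpleGraph.cycleGraph_adj]
    left
    abel
  have hne : ∀ i : Fin (m + 3), φ i ≠ none := by
    intro i hi
    have h1 := hadj _ _ (hnext i)
    have h2 := hadj _ _ (hprev i)
    rw [hi] at h1 h2
    have h3 := hinj _ _ ((ext_none h1).trans (ext_none h2).symm)
    have h4 : (1 : Fin (m + 3)) + 1 = 0 := by
      have h5 : i + 1 - (i - 1) = 0 := sub_eq_zero.2 h3
      have h6 : i + 1 - (i - 1) = 1 + 1 := by abel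
      rw [← h6, h5]
    have h7 : ((1 : Fin (m + 3)) + 1).val = (1 % (m + 3) + 1 % (m + 3)) % (m + 3) := by
      rw [Fin.val_add]
      rfl
    rw [← Nat.add_mod, Nat.mod_eq_of_lt (by omega), h4] at h7
    exact absurd h7 (by simp)
  choose ψ hψ using fun i => Option.ne_none_iff_exists'.1 (hne i)
  refine ht (m + 3) hn ⟨⟨⟨ψ, ?_⟩, ?_⟩⟩
  · intro i j h
    have h1 := hadj i j h
    rw [hψ i, hψ j] at h1
    exact ext_some.1 h1
  · intro i j h
    refine hinj i j ?_
    rw [hψ i, hψ j]
    exact congrArg some h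

end ItT1

open ItT1 in
theorem T1 : PT1 := by
  intro V G w b u v hw huv hb ⟨T, t, bag, ht, h1, h2, h3⟩
  have hbu : G.Adj b u := by
    have : u ∈ G.neighborSet b := by
      rw [hb]
      exact Set.mem_insert _ _
    exact this
  have hbv : G.Adj b v := by
    have : v ∈ G.neighborSet b := by
      rw [hb]
      exact Set.mem_insert_of_mem _ rfl
    exact this
  have hub : u ≠ b := hbu.ne.symm
  have hvb : v ≠ b := hbv.ne.symm
  obtain ⟨x0, hx1, hx2⟩ := h2 u v ⟨huv, hub, hvb⟩
  refine ⟨Option T, ext t x0, fun y => y.elim {b, u, v} fun x => bag x \ {b}, ?_, ?_, ?_, ?_⟩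
  · exact ⟨ext_connected t x0 ht.connected, ext_acyclic t x0 ht.isAcyclic⟩
  · intro p
    by_cases hp : p = b
    · subst hp
      have hall : ∀ a : Option T, a ∈ {y : Option T | p ∈ (y.elim {p, u, v} fun x => bag x \ {p})} →
          a = none := by
        rintro (_ | x) ha
        · rfl
        · exact absurd rfl ha.2
      have : Nonempty {y : Option T | p ∈ (y.elim {p, u, v} fun x => bag x \ {p})} :=
        ⟨⟨none, Set.mem_insert _ _⟩⟩
      refine SimpleGraph.Connected.mk fun a a' => ?_
      have : a = a' := Subtype.ext ((hall a.1 a.2).trans (hall a'.1 a'.2).symm)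
      rw [this]
    · refine conn_ext t x0 {x | p ∈ bag x} _ (h1 p) (fun x => ?_) (fun h => ?_)
      · constructor
        · intro h
          exact h.1
        · intro h
          exact ⟨h, hp⟩
      · have h' : p ∈ ({b, u, v} : Set V) := h
        rcases h' with h' | h' | h'
        · exact absurd h' hp
        · rw [h']
          exact hx1
        · rw [Set.mem_singleton_iff.1 h']
          exact hx2
  · intro p q hpq
    by_cases hp : p = b
    · subst hp
      have hq : q ∈ G.neighborSet p := hpq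
      rw [hb] at hq
      exact ⟨none, Set.mem_insert _ _, Set.mem_insert_of_mem _ hq⟩
    · by_cases hq : q = b
      · subst hq
        have hp' : p ∈ G.neighborSet q := hpq.symm
        rw [hb] at hp'
        exact ⟨none, Set.mem_insert_of_mem _ hp', Set.mem_insert _ _⟩
      · obtain ⟨x, hx, hx'⟩ := h2 p q ⟨hpq, hp, hq⟩
        exact ⟨some x, ⟨hx, hp⟩, ⟨hx', hq⟩⟩
  · rintro (_ | x)
    · have e1 : ({b, u, v} : Set V).encard ≤ 3 := by
        calc ({b, u, v} : Set V).encard ≤ ({u, v} : Set V).encard + 1 := Set.encard_insert_le _ _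
          _ ≤ (({v} : Set V).encard + 1) + 1 := by
            gcongr
            exact Set.encard_insert_le _ _
          _ = 3 := by
            rw [Set.encard_singleton]
            norm_num
      refine e1.trans ?_
      have : (3 : ℕ∞) = ((2 : ℕ) : ℕ∞) + 1 := by norm_num
      rw [this]
      gcongr
    · exact (Set.encard_le_encard Set.sdiff_subset).trans (h3 x)

end Pool.Agent.PHer
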