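import Pool.Agent.Work.MP_cfa43e_lc.Her.Stmts

/-!
# Item T4: tree width of the incidence graph
-/

set_option autoImplicit false

namespace Pool.Agent.PHer

open Pool.Agent.PEmb Pool.Agent.PReg

namespace ItT4

/-- the vertices of `G` attached to a vertex of the incidence graph -/
def nb {V : Type} (G : SimpleGraph V) : V ⊕ Set V → Set V
  | .inl v => {v}
  | .inr s => {v | s ∈ Ed G ∧ v ∈ s}

theorem pair_le {V : Type} (x y : V) : ({x, y} : Set V).encard ≤ 3 := by
  refine (Set.encard_insert_le _ _).trans ?_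
  rw [Set.encard_singleton]
  norm_num

theorem triple_le {V : Type} (x y z : V) : ({x, y, z} : Set V).encard ≤ 3 := by
  refine (Set.encard_insert_le _ _).trans ?_
  have h2 : ({y, z} : Set V).encard ≤ 2 := by
    refine (Set.encard_insert_le _ _).trans ?_
    rw [Set.encard_singleton]
    norm_num
  calc ({y, z} : Set V).encard + 1 ≤ 2 + 1 := add_le_add h2 le_rfl
    _ = 3 := by norm_num

theorem ed_le {V : Type} (G : SimpleGraph V) (s : Set V) (h : s ∈ Ed G) : s.encard ≤ 3 := by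
  rcases h with ⟨x, y, -, rfl, -⟩ | ⟨x, y, z, -, -, -, rfl⟩
  · exact pair_le x y
  · exact triple_le x y z

theorem nb_le {V : Type} (G : SimpleGraph V) (p : V ⊕ Set V) : (nb G p).encard ≤ 3 := by
  rcases p with v | s
  · show ({v} : Set V).encard ≤ 3
    rw [Set.encard_singleton]
    norm_num
  · show {v | s ∈ Ed G ∧ v ∈ s}.encard ≤ 3
    by_cases h : s ∈ Ed G
    · exact (Set.encard_le_encard (fun v hv => hv.2)).trans (ed_le G s h)
    · have : {v | s ∈ Ed G ∧ v ∈ s} = ∅ := by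
        ext v
        simp [h]
      rw [this, Set.encard_empty]
      exact zero_le

theorem un_encard {V : Type} (G : SimpleGraph V) (F : Finset (V ⊕ Set V)) :
    (⋃ p ∈ F, nb G p).encard ≤ (3 * F.card : ℕ) := by
  classical
  induction F using Finset.induction_on with
  | empty => simp
  | insert a F ha ih =>
    rw [Finset.set_biUnion_insert, Finset.card_insert_of_notMem ha]
    refine (Set.encard_union_le _ _).trans ?_
    refine (add_le_add (nb_le G a) ih).trans ?_
    have : (3 : ℕ∞) + ((3 * F.card : ℕ) : ℕ∞) = ((3 + 3 * F.card : ℕ) : ℕ∞) := by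
      push_cast
      rfl
    rw [this]
    exact_mod_cast le_of_eq (by ring)

theorem un_set {V : Type} (G : SimpleGraph V) (w : ℕ) (A : Set (V ⊕ Set V))
    (hA : A.encard ≤ (w + 1 : ℕ)) :
    (⋃ p ∈ A, nb G p).encard ≤ (3 * (w + 1) : ℕ) := by
  have hfin : A.Finite := Set.finite_of_encard_le_coe hA
  obtain ⟨F, rfl⟩ : ∃ F : Finset (V ⊕ Set V), (F : Set (V ⊕ Set V)) = A :=
    ⟨hfin.toFinset, by simp⟩
  refine le_trans ?_ ((un_encard G F).trans ?_)
  · simp
  · rw [Set.encard_coe_eq_coe_finsetCard] at hA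
    have : F.card ≤ w + 1 := by exact_mod_cast hA
    exact_mod_cast Nat.mul_le_mul_left 3 this

end ItT4

open ItT4 in
theorem T4 : PT4 := by
  intro V G w htw
  obtain ⟨T, t, bag, hT, hc, he, hb⟩ := htw
  refine ⟨T, t, fun x => ⋃ p ∈ bag x, nb G p, hT, fun v => ?_, fun u v huv => ?_, fun x => ?_⟩
  · -- the parts containing a vertex
    have e : {x | v ∈ ⋃ p ∈ bag x, nb G p} = ⋃₀ ({({x | Sum.inl v ∈ bag x} : Set T)} ∪
        {B : Set T | ∃ s ∈ Ed G, v ∈ s ∧
          B = {x | Sum.inl v ∈ bag x} ∪ {x | Sum.inr s ∈ bag x}}) := by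
      ext x
      simp only [Set.mem_ofPred_eq, Set.mem_iUnion, Set.mem_sUnion, Set.mem_union,
        Set.mem_singleton_iff, exists_prop]
      constructor
      · rintro ⟨p, hp, hv⟩
        rcases p with v' | s
        · have : v = v' := hv
          subst this
          exact ⟨_, Or.inl rfl, hp⟩
        · exact ⟨_, Or.inr ⟨s, hv.1, hv.2, rfl⟩, Or.inr hp⟩
      · rintro ⟨B, rfl | ⟨s, hs, hvs, rfl⟩, hx⟩
        · exact ⟨Sum.inl v, hx, rfl⟩
        · rcases hx with hx | hx
          · exact ⟨Sum.inl v, hx, rfl⟩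
          · exact ⟨Sum.inr s, hx, hs, hvs⟩
    rw [e]
    obtain ⟨x0, hx0⟩ := (hc (Sum.inl v)).nonempty
    have hx0' : Sum.inl v ∈ bag x0 := hx0
    refine SimpleGraph.induce_sUnion_connected_of_pairwise_not_disjoint ?_ ?_ ?_
    · exact ⟨_, Or.inl rfl⟩
    · intro A B hA hB
      refine ⟨x0, ?_, ?_⟩
      · rcases hA with rfl | ⟨s, -, -, rfl⟩
        · exact hx0
        · exact Or.inl hx0
      · rcases hB with rfl | ⟨s, -, -, rfl⟩
        · exact hx0
        · exact Or.inl hx0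
    · intro A hA
      rcases hA with rfl | ⟨s, hs, hvs, rfl⟩
      · exact hc (Sum.inl v)
      · obtain ⟨y, hy1, hy2⟩ := he (Sum.inl v) (Sum.inr s) (Or.inl ⟨v, s, rfl, rfl, hs, hvs⟩)
        exact SimpleGraph.induce_union_connected (hc (Sum.inl v)).preconnected
          (hc (Sum.inr s)).preconnected ⟨y, hy1, hy2⟩
  · -- the edges
    obtain ⟨s, hs, hu, hv⟩ : ∃ s ∈ Ed G, u ∈ s ∧ v ∈ s := by
      by_cases h : ∃ z, G.Adj u z ∧ G.Adj v z
      · obtain ⟨z, h1, h2⟩ := h
        exact ⟨{u, v, z}, Or.inr ⟨u, v, z, huv, h2, h1, rfl⟩, by simp, by simp⟩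
      · push Not at h
        exact ⟨{u, v}, Or.inl ⟨u, v, huv, rfl, fun z hz => h z hz.1 hz.2⟩, by simp, by simp⟩
    obtain ⟨x, hx⟩ := (hc (Sum.inr s)).nonempty
    refine ⟨x, ?_, ?_⟩
    · exact Set.mem_iUnion₂.2 ⟨Sum.inr s, hx, hs, hu⟩
    · exact Set.mem_iUnion₂.2 ⟨Sum.inr s, hx, hs, hv⟩
  · have h1 : (bag x).encard ≤ ((w + 1 : ℕ) : ℕ∞) := by
      rw [Nat.cast_add, Nat.cast_one]
      exact hb x
    refine (un_set G w (bag x) h1).trans ?_
    exact le_self_add

end Pool.Agent.PHer
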