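import Pool.Agent.Work.MP_cfa43e_lc.Her.StmtsH

/-!
# H4: hubs and chains in an induced grid minor
-/

set_option autoImplicit false

namespace Pool.Agent.PHer

open Pool.Agent.PEmb Pool.Agent.PReg

namespace ItH4

/-- the points of the chains -/
def pt : Bool → ℕ → ℕ → ℕ → ℕ × ℕ
  | false, i, j, a => (4 * i, 4 * j + a)
  | true, i, j, a => (4 * i + a, 4 * j)

/-- the chains -/
def ch {V : Type} (B : ℕ → ℕ → Set V) (o : Bool) (i j : ℕ) : Set V :=
  {v | ∃ a, 1 ≤ a ∧ a ≤ 3 ∧ v ∈ B (pt o i j a).1 (pt o i j a).2}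

theorem pt_lt (k : ℕ) (o : Bool) (i j a : ℕ) (h : Ex k o i j) (ha : a ≤ 3) :
    (pt o i j a).1 < 4 * k ∧ (pt o i j a).2 < 4 * k := by
  obtain ⟨h1, h2⟩ := h
  cases o <;> simp only [nx, pt] at h1 h2 ⊢ <;> omega

theorem conn3 {V : Type} (G : SimpleGraph V) (A B : Set V) (hA : (G.induce A).Connected)
    (hB : (G.induce B).Connected) (h : ∃ a ∈ A, ∃ b ∈ B, G.Adj a b) :
    (G.induce (A ∪ B)).Connected := by
  obtain ⟨a, ha, b, hb, hab⟩ := h
  exact SimpleGraph.connected_induce_union hA.preconnected hB.preconnected ha hb hab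

end ItH4

open ItH4 in
theorem H4 : PH4 := by
  intro V G k B hB
  have hG := hB.grid
  have key : ∀ x y x' y', x < 4 * k → y < 4 * k → x' < 4 * k → y' < 4 * k →
      ¬ (x = x' ∧ y = y') → ∀ u ∈ B x y, ∀ v ∈ B x' y', u ≠ v ∧ (G.Adj u v →
        (x = x' ∧ (y + 1 = y' ∨ y' + 1 = y)) ∨ (y = y' ∧ (x + 1 = x' ∨ x' + 1 = x))) := by
    intro x y x' y' hx hy hx' hy' hne u hu v hv
    have hne' : (x, y) ≠ (x', y') := by
      intro h
      rw [Prod.mk.injEq] at h
      exact hne h
    refine ⟨?_, hB.ind x y x' y' hx hy hx' hy' hne' u hu v hv⟩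
    rintro rfl
    exact Set.disjoint_left.mp (hG.disj x y x' y' hx hy hx' hy' hne') hu hv
  have hnext : ∀ o i j a, Ex k o i j → a < 4 →
      (pt o i j (a + 1)).1 < 4 * k → (pt o i j (a + 1)).2 < 4 * k →
      ∃ u ∈ B (pt o i j a).1 (pt o i j a).2, ∃ v ∈ B (pt o i j (a + 1)).1 (pt o i j (a + 1)).2,
        G.Adj u v := by
    intro o i j a hE ha h1 h2
    cases o
    · simp only [pt] at h1 h2 ⊢
      exact hG.ver (4 * i) (4 * j + a) h1 h2
    · simp only [pt] at h1 h2 ⊢
      exact hG.hor (4 * i + a) (4 * j) h1 h2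
  refine ⟨fun i j => B (4 * i) (4 * j), ch B, ?_⟩
  constructor
  · intro i j hi hj
    exact hG.conn _ _ (by omega) (by omega)
  · intro o i j hE
    have h1 : ch B o i j = (B (pt o i j 1).1 (pt o i j 1).2 ∪ B (pt o i j 2).1 (pt o i j 2).2) ∪
        B (pt o i j 3).1 (pt o i j 3).2 := by
      ext v
      simp only [ch, Set.mem_ofPred_eq, Set.mem_union]
      constructor
      · rintro ⟨a, ha1, ha3, hv⟩
        have : a = 1 ∨ a = 2 ∨ a = 3 := by omega
        rcases this with rfl | rfl | rfl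
        · exact Or.inl (Or.inl hv)
        · exact Or.inl (Or.inr hv)
        · exact Or.inr hv
      · rintro ((hv | hv) | hv)
        · exact ⟨1, by omega, by omega, hv⟩
        · exact ⟨2, by omega, by omega, hv⟩
        · exact ⟨3, by omega, by omega, hv⟩
    rw [h1]
    have l1 := pt_lt k o i j 1 hE (by omega)
    have l2 := pt_lt k o i j 2 hE (by omega)
    have l3 := pt_lt k o i j 3 hE (by omega)
    apply conn3
    · apply conn3
      · exact hG.conn _ _ l1.1 l1.2
      · exact hG.conn _ _ l2.1 l2.2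
      · exact hnext o i j 1 hE (by omega) l2.1 l2.2
    · exact hG.conn _ _ l3.1 l3.2
    · obtain ⟨u, hu, v, hv, h⟩ := hnext o i j 2 hE (by omega) l3.1 l3.2
      exact ⟨u, Or.inr hu, v, hv, h⟩
  · intro i j i' j' hi hj hi' hj' hne u hu v hv
    have hne' : ¬ (i = i' ∧ j = j') := fun h => hne (by rw [h.1, h.2])
    have h1 := key (4 * i) (4 * j) (4 * i') (4 * j') (by omega) (by omega) (by omega) (by omega)
      (by omega) u hu v hv
    exact ⟨h1.1, fun h => by have := h1.2 h; omega⟩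
  · rintro o i j o' i' j' hE hE' hne u ⟨a, ha1, ha3, hu⟩ v ⟨a', ha1', ha3', hv⟩
    have l1 := pt_lt k o i j a hE ha3
    have l2 := pt_lt k o' i' j' a' hE' ha3'
    cases o <;> cases o'
    · have hne' : ¬ (i = i' ∧ j = j') := fun h => hne (by rw [h.1, h.2])
      simp only [pt] at hu hv l1 l2
      have h1 := key _ _ _ _ l1.1 l1.2 l2.1 l2.2 (by omega) u hu v hv
      exact ⟨h1.1, fun h => by have := h1.2 h; omega⟩
    · simp only [pt] at hu hv l1 l2
      have h1 := key _ _ _ _ l1.1 l1.2 l2.1 l2.2 (by omega) u hu v hv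
      exact ⟨h1.1, fun h => by have := h1.2 h; omega⟩
    · simp only [pt] at hu hv l1 l2
      have h1 := key _ _ _ _ l1.1 l1.2 l2.1 l2.2 (by omega) u hu v hv
      exact ⟨h1.1, fun h => by have := h1.2 h; omega⟩
    · have hne' : ¬ (i = i' ∧ j = j') := fun h => hne (by rw [h.1, h.2])
      simp only [pt] at hu hv l1 l2
      have h1 := key _ _ _ _ l1.1 l1.2 l2.1 l2.2 (by omega) u hu v hv
      exact ⟨h1.1, fun h => by have := h1.2 h; omega⟩
  · rintro o i j i' j' hE hi' hj' u ⟨a, ha1, ha3, hu⟩ v hv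
    have l1 := pt_lt k o i j a hE ha3
    cases o
    · simp only [pt] at hu l1
      have h1 := key _ _ _ _ l1.1 l1.2 (show 4 * i' < 4 * k by omega)
        (show 4 * j' < 4 * k by omega) (by omega) u hu v hv
      refine ⟨h1.1, fun h => ?_⟩
      have h2 := h1.2 h
      simp only [nx, Prod.mk.injEq]
      omega
    · simp only [pt] at hu l1
      have h1 := key _ _ _ _ l1.1 l1.2 (show 4 * i' < 4 * k by omega)
        (show 4 * j' < 4 * k by omega) (by omega) u hu v hv
      refine ⟨h1.1, fun h => ?_⟩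
      have h2 := h1.2 h
      simp only [nx, Prod.mk.injEq]
      omega
  · intro o i j hE
    have l1 := pt_lt k o i j 1 hE (by omega)
    obtain ⟨u, hu, v, hv, h⟩ := hnext o i j 0 hE (by omega) l1.1 l1.2
    refine ⟨v, ⟨1, le_rfl, by omega, hv⟩, u, ?_, h.symm⟩
    cases o <;> simpa [pt] using hu
  · intro o i j hE
    have l4 : (pt o i j 4).1 < 4 * k ∧ (pt o i j 4).2 < 4 * k := by
      obtain ⟨h1, h2⟩ := hE
      cases o <;> simp only [nx, pt] at h1 h2 ⊢ <;> omega
    obtain ⟨u, hu, v, hv, h⟩ := hnext o i j 3 hE (by omega) l4.1 l4.2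
    refine ⟨u, ⟨3, by omega, le_rfl, hu⟩, v, ?_, h⟩
    cases o
    · have e : 4 * (j + 1) = 4 * j + (3 + 1) := by omega
      simp only [pt, nx] at hv ⊢
      rw [e]; exact hv
    · have e : 4 * (i + 1) = 4 * i + (3 + 1) := by omega
      simp only [pt, nx] at hv ⊢
      rw [e]; exact hv
  · rintro o i j hE u ⟨a, ha1, ha3, hu⟩ v hv v' hv' ⟨h, h'⟩
    have l1 := pt_lt k o i j a hE ha3
    obtain ⟨hE1, hE2⟩ := hE
    cases o
    · simp only [pt] at hu l1
      simp only [nx] at hv' hE1 hE2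
      have h1 := (key _ _ _ _ l1.1 l1.2 (show 4 * i < 4 * k by omega)
        (show 4 * j < 4 * k by omega) (by omega) u hu v hv).2 h
      have h2 := (key _ _ _ _ l1.1 l1.2 (show 4 * i < 4 * k by omega)
        (show 4 * (j + 1) < 4 * k by omega) (by omega) u hu v' hv').2 h'
      omega
    · simp only [pt] at hu l1
      simp only [nx] at hv' hE1 hE2
      have h1 := (key _ _ _ _ l1.1 l1.2 (show 4 * i < 4 * k by omega)
        (show 4 * j < 4 * k by omega) (by omega) u hu v hv).2 h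
      have h2 := (key _ _ _ _ l1.1 l1.2 (show 4 * (i + 1) < 4 * k by omega)
        (show 4 * j < 4 * k by omega) (by omega) u hu v' hv').2 h'
      omega

end Pool.Agent.PHer
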