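import Pool.Agent.Work.MP_cfa43e_lc.Bd.B13
import Pool.Agent.Work.MP_cfa43e_lc.Bd.B11
import Pool.Agent.Work.MP_cfa43e_lc.Bd.B12
import Pool.Agent.Work.MP_cfa43e_lc.Her.H4

/-!
# Hereditary classes with large induced grid minors: all items together
-/

set_option autoImplicit false

namespace Pool.Agent.PHer

open Pool.Agent.PEmb Pool.Agent.PReg

theorem h2' : PH2 := H2 H1
theorem h5' : PH5 := H5 h2' H3

/-- Hereditary classes with arbitrarily large induced grid minors. -/
theorem mainIG (C : Code → Prop) (hC : ComputablePred C) (hH : Hereditary C)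
    (hU : IGridUnb C) : FptReducible Clique cliqueParam (Emb C) embParam :=
  MainIG Pool.Agent.PReg.b herSem Pool.Agent.PReg.sall Pool.Agent.PReg.S5 Pool.Agent.PReg.s2
    H4 h5' D22 C hC hH hU

end Pool.Agent.PHer
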