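import Pool.Agent.Work.MP_cfa43e_lc.Her.Stmts
import Pool.Agent.Work.MP_cfa43e_lc.Bd.B07

/-!
# P6: positions on the legs of the half square
-/

set_option autoImplicit false

namespace Pool.Agent.PHer

open Pool.Agent.PEmb Pool.Agent.PReg

namespace ItP6

variable {K : ℕ} {P : Par}

/-- the vertex at position `p` of the whole leg, with its two roots -/
def X (P : Par) (o : Bool) (a b p : ℕ) : Lab :=
  if p = 0 then .core a b (P.r a b (ro o))
  else if p = P.l o a b then
    .core (nx o a b).1 (nx o a b).2 (P.r (nx o a b).1 (nx o a b).2 (ri o))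
  else .leg o a b p

lemma adjX {o : Bool} {a b p : ℕ} (hex : Ex K o a b) (hl : 10 ≤ P.l o a b)
    (hp : p < P.l o a b) : AAdj K P (X P o a b p) (X P o a b (p + 1)) := by
  rcases Nat.eq_zero_or_pos p with h0 | h0
  · subst h0
    have e1 : X P o a b 0 = .core a b (P.r a b (ro o)) := by simp [X]
    have e2 : X P o a b (0 + 1) = .leg o a b 1 := by
      simp only [X]
      rw [if_neg (by omega), if_neg (by omega)]
    rw [e1, e2]
    exact Or.inl (AE.out o a b hex)
  · have e1 : X P o a b p = .leg o a b p := by
      simp only [X]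
      rw [if_neg (by omega), if_neg (by omega)]
    rw [e1]
    rcases Nat.lt_or_ge (p + 1) (P.l o a b) with h | h
    · have e2 : X P o a b (p + 1) = .leg o a b (p + 1) := by
        simp only [X]
        rw [if_neg (by omega), if_neg (by omega)]
      rw [e2]
      exact Or.inl (AE.step o a b p hex h0 h)
    · have e3 : p + 1 = P.l o a b := by omega
      have e2 : X P o a b (p + 1) =
          .core (nx o a b).1 (nx o a b).2 (P.r (nx o a b).1 (nx o a b).2 (ri o)) := by
        simp only [X]
        rw [if_neg (by omega), if_pos e3]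
      rw [e2]
      have h3 := AE.inn (P := P) o a b hex
      rw [show P.l o a b - 1 = p by omega] at h3
      exact Or.inl h3

lemma colX {col : Lab → Bool} (hc : Alt K P col) {o : Bool} {a b : ℕ} (hex : Ex K o a b)
    (hl : 10 ≤ P.l o a b) : ∀ p, p ≤ P.l o a b →
    col (X P o a b p) = (if p % 2 = 0 then col (X P o a b 0) else !col (X P o a b 0)) := by
  intro p
  induction p with
  | zero => intro _; simp
  | succ p ih =>
    intro h
    have h1 := ih (by omega)
    have h2 := hc _ _ (adjX (P := P) hex hl (p := p) (by omega))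
    rw [h1] at h2
    rcases Nat.mod_two_eq_zero_or_one p with h3 | h3
    · rw [if_pos h3] at h2
      rw [if_neg (by omega)]
      cases h4 : col (X P o a b 0) <;> cases h5 : col (X P o a b (p + 1)) <;> simp_all
    · rw [if_neg (by omega)] at h2
      rw [if_pos (by omega)]
      cases h4 : col (X P o a b 0) <;> cases h5 : col (X P o a b (p + 1)) <;> simp_all

lemma neX {o : Bool} {a b p : ℕ} (hl : 10 ≤ P.l o a b) (hp : p + 2 ≤ P.l o a b) :
    X P o a b p ≠ X P o a b (p + 2) := by
  simp only [X]
  rcases Nat.eq_zero_or_pos p with h0 | h0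
  · subst h0
    rw [if_pos rfl, if_neg (by omega), if_neg (by omega)]
    intro h
    cases h
  · rw [if_neg (show ¬ p = 0 by omega), if_neg (show ¬ p = P.l o a b by omega),
      if_neg (show ¬ p + 2 = 0 by omega)]
    split_ifs with h
    · intro h'
      cases h'
    · intro h'
      injection h' with _ _ _ h5
      omega

lemma nx1 (o : Bool) (i j : ℕ) : (nx o (i + 1) (j + 1)).1 = (nx o i j).1 + 1 := by
  cases o <;> rfl

lemma nx2 (o : Bool) (i j : ℕ) : (nx o (i + 1) (j + 1)).2 = (nx o i j).2 + 1 := by
  cases o <;> rfl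

lemma ex_up {k : ℕ} {o : Bool} {i j : ℕ} (h : Ex k o i j) : Ex (k + 2) o (i + 1) (j + 1) := by
  cases o <;> simp only [Ex, nx] at h ⊢ <;> omega

lemma sta1 (P : Par) (col : Lab → Bool) (o : Bool) (i j : ℕ) : sta P col i j (ro o) =
    if col (X P o (i + 1) (j + 1) 0) = true then 0 else 1 := by
  simp only [sta, X, ItR7.hl_zero, if_true]

lemma sta2 (P : Par) (col : Lab → Bool) (o : Bool) (i j : ℕ) (hl : 10 ≤ P.l o (i + 1) (j + 1)) :
    sta P col (nx o i j).1 (nx o i j).2 (ri o) =
    if col (X P o (i + 1) (j + 1) (P.l o (i + 1) (j + 1))) = true then 0 else 1 := by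
  have e : X P o (i + 1) (j + 1) (P.l o (i + 1) (j + 1)) =
      .core ((nx o i j).1 + 1) ((nx o i j).2 + 1)
        (P.r ((nx o i j).1 + 1) ((nx o i j).2 + 1) (ri o)) := by
    simp only [X]
    rw [if_neg (by omega), if_true, nx1, nx2]
  rw [e]
  simp only [sta, ItR7.hl_zero]

end ItP6

open ItP6

/-- P6. -/
theorem P6 : PP6 := by
  intro k P col hA hc o i j hex
  have hex' := ex_up hex
  have hl : 10 ≤ P.l o (i + 1) (j + 1) := ItR7.lge hA.toAdm hex'
  have s1 := sta1 P col o i j
  have s2 := sta2 P col o i j hl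
  have hcol := colX hc hex' hl
  have b1 : sta P col i j (ro o) ≤ 1 := by rw [s1]; split_ifs <;> omega
  have b2 : sta P col (nx o i j).1 (nx o i j).2 (ri o) ≤ 1 := by rw [s2]; split_ifs <;> omega
  have hll : ll P col o i j = (P.l o (i + 1) (j + 1) - sta P col i j (ro o) -
    sta P col (nx o i j).1 (nx o i j).2 (ri o)) / 2 := rfl
  have hsum : sta P col i j (ro o) + 2 * ll P col o i j +
      sta P col (nx o i j).1 (nx o i j).2 (ri o) = P.l o (i + 1) (j + 1) := by
    have h1 := hcol _ (le_refl _)
    have key : (sta P col i j (ro o) + sta P col (nx o i j).1 (nx o i j).2 (ri o) +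
        P.l o (i + 1) (j + 1)) % 2 = 0 := by
      rcases Nat.mod_two_eq_zero_or_one (P.l o (i + 1) (j + 1)) with h3 | h3
      · rw [if_pos h3] at h1
        rw [h1] at s2
        cases h4 : col (X P o (i + 1) (j + 1) 0) <;> simp [h4] at s1 s2 <;> omega
      · rw [if_neg (by omega)] at h1
        rw [h1] at s2
        cases h4 : col (X P o (i + 1) (j + 1) 0) <;> simp [h4] at s1 s2 <;> omega
    omega
  have hcol1 : ∀ s, s ≤ ll P col o i j →
      col (X P o (i + 1) (j + 1) (sta P col i j (ro o) + 2 * s)) = true := by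
    intro s hs
    rw [hcol _ (by omega)]
    cases h4 : col (X P o (i + 1) (j + 1) 0) <;> simp [h4] at s1 <;> simp <;> omega
  have hLg : ∀ s, s ≤ ll P col o i j → Lg P col o i j s =
      X P o (i + 1) (j + 1) (sta P col i j (ro o) + 2 * s) := by
    intro s hs
    simp only [Lg]
    rcases Nat.lt_or_ge s (ll P col o i j) with h | h
    · rw [if_neg (by omega)]
      rcases Nat.eq_zero_or_pos (sta P col i j (ro o) + 2 * s) with h0 | h0
      · rw [h0, ItR7.hl_zero]
        simp only [X, if_true]
      · rw [ItRC.hl_ro _ _ _ _ (by omega)]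
        simp only [X]
        rw [if_neg (by omega), if_neg (by omega)]
    · have e : s = ll P col o i j := by omega
      rw [if_pos e, e]
      simp only [rts]
      rcases Nat.lt_or_ge 0 (sta P col (nx o i j).1 (nx o i j).2 (ri o)) with h5 | h5
      · have e5 : sta P col (nx o i j).1 (nx o i j).2 (ri o) = 1 := by omega
        rw [e5, ← nx1, ← nx2, ItRC.hl_ri _ _ _ _ (by omega)]
        simp only [X]
        rw [if_neg (by omega), if_neg (by omega),
          show P.l o (i + 1) (j + 1) - 1 = sta P col i j (ro o) + 2 * ll P col o i j by omega]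
      · have e5 : sta P col (nx o i j).1 (nx o i j).2 (ri o) = 0 := by omega
        rw [e5, ItR7.hl_zero,
          show sta P col i j (ro o) + 2 * ll P col o i j = P.l o (i + 1) (j + 1) by omega]
        simp only [X]
        rw [if_neg (by omega), if_true, nx1, nx2]
  refine ⟨?_, hsum, ?_, ?_, ?_⟩
  · intro i' j' hi' hj'
    have h := hA.lbig2 o (i + 1) (j + 1) (i' + 1) (j' + 1) hex' (by omega) (by omega)
    omega
  · intro s h1 h2
    refine ⟨?_, by omega, by omega⟩
    rw [hLg s (by omega)]
    simp only [X]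
    rw [if_neg (by omega), if_neg (by omega)]
  · have h := hA.lbig2 o (i + 1) (j + 1) 0 0 hex' (by omega) (by omega)
    simp only [Lg]
    rw [if_neg (by omega)]
    rfl
  · intro s hs
    rw [hLg s (by omega), hLg (s + 1) (by omega)]
    have e : sta P col i j (ro o) + 2 * (s + 1) = (sta P col i j (ro o) + 2 * s) + 2 := by ring
    refine ⟨?_, hcol1 s (by omega), ?_, X P o (i + 1) (j + 1) (sta P col i j (ro o) + 2 * s + 1),
      adjX hex' hl (by omega), ?_⟩
    · rw [e]
      exact neX hl (by omega)
    · exact hcol1 (s + 1) (by omega)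
    · rw [e]
      exact adjX hex' hl (by omega)

end Pool.Agent.PHer
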