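import Pool.Agent.Work.MP_cfa43e_lc.Reg.StmtsB

/-!
# Hereditary classes: definitions and items

Every item is a `Prop` `PXn`; it is to be proved as `theorem Xn : PXn` (or
`theorem Xn (h : PYm) ... : PXn` if it uses other items) in the file `Her/Xn.lean`.
-/

set_option autoImplicit false

namespace Pool.Agent.PHer

open Pool.Agent.PEmb Pool.Agent.PReg

/-! ## E: extraction of a pattern with gaps -/

/-- Admissible parameters with gaps between the lengths of the cycles. -/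
structure AdmG (k : ℕ) (P : Par) : Prop extends Adm k P where
  gap : ∀ i j i' j', i < k → j < k → i' < k → j' < k → (i, j) ≠ (i', j') →
    P.z i j + 10 ≤ P.z i' j' ∨ P.z i' j' + 10 ≤ P.z i j
  z20 : ∀ i j, i < k → j < k → 20 ≤ P.z i j
  lbig2 : ∀ o i j i' j', Ex k o i j → i' < k → j' < k → 2 * P.z i' j' + 30 ≤ P.l o i j

/-- Blocks as in the first theorem, with more capabilities. -/
structure BlocksG {V : Type} (G : SimpleGraph V) (K : ℕ) (B : ℕ → ℕ → Set V) (k L : ℕ)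
    (X Y : ℕ → ℕ) (e : ℕ → ℕ → V) (μ : ℕ → ℕ) : Prop where
  blk : Blocks G K B k L X Y e μ
  cap : ∀ d, d ≤ 3 * (k * k) → Cap G (Rg B (Rc L X Y d)) (e d) (21 * (k * k) + 20) (μ d)

/-- E1: a choice with gaps (compare E18 of the first theorem). -/
def PE1 : Prop := ∀ {α : Type} [Nonempty α] (n : ℕ) (ok : ℕ → α → Prop) (len : α → ℕ),
  (∀ i, i < n → ∀ F : Finset ℕ, F.card < 21 * n + 20 → ∃ x, ok i x ∧ len x ∉ F) →
    ∃ c : ℕ → α, (∀ i, i < n → ok i (c i)) ∧ (∀ i, i < n → 20 ≤ len (c i)) ∧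
      ∀ i j, i < n → j < n → i ≠ j → len (c i) + 10 ≤ len (c j) ∨ len (c j) + 10 ≤ len (c i)

/-- E2: assembly of the pattern (compare E19 of the first theorem). -/
def PE2 : Prop := ∀ {V : Type} [Nonempty V] (G : SimpleGraph V) (k : ℕ) (Z : ℕ → ℕ → List V)
  (Λ : Bool → ℕ → ℕ → List V) (rt : ℕ → ℕ → ℕ → V),
  (∀ i j, i < k → j < k → IsCyc G (Z i j) ∧ 20 ≤ (Z i j).length) →
  (∀ i j i' j', i < k → j < k → i' < k → j' < k → (i, j) ≠ (i', j') →
    (Z i j).length + 10 ≤ (Z i' j').length ∨ (Z i' j').length + 10 ≤ (Z i j).length) →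
  (∀ i j i' j', i < k → j < k → i' < k → j' < k → (i, j) ≠ (i', j') →
    List.Disjoint (Z i j) (Z i' j')) →
  (∀ i j d, i < k → j < k → d < 4 → rt i j d ∈ Z i j) →
  (∀ i j d d', i < k → j < k → d < 4 → d' < 4 → rt i j d = rt i j d' → d = d') →
  (∀ o i j, Ex k o i j → IsPth G Set.univ (rt i j (ro o))
    (rt (nx o i j).1 (nx o i j).2 (ri o)) (Λ o i j)) →
  (∀ o i j i' j', Ex k o i j → i' < k → j' < k → 2 * (Z i' j').length + 31 ≤ (Λ o i j).length) →
  (∀ o i j i' j', Ex k o i j → i' < k → j' < k → ∀ v ∈ Λ o i j, v ∈ Z i' j' →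
    v = rt i j (ro o) ∨ v = rt (nx o i j).1 (nx o i j).2 (ri o)) →
  (∀ o i j o' i' j', Ex k o i j → Ex k o' i' j' → (o, i, j) ≠ (o', i', j') →
    ∀ v ∈ Λ o i j, v ∉ Λ o' i' j') →
  ∃ P, AdmG k P ∧ PatIn k P G

/-- E3: the pattern from blocks (uses E1, E2 and items of the first theorem). -/
def PE3 : Prop := ∀ {V : Type} (G : SimpleGraph V) (K : ℕ) (B : ℕ → ℕ → Set V) (k L : ℕ)
  (X Y : ℕ → ℕ) (e : ℕ → ℕ → V) (μ : ℕ → ℕ), BlocksG G K B k L X Y e μ →
    ∃ P, AdmG k P ∧ PatIn k P G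

/-- E4: blocks in a large grid model (compare E22 of the first theorem). -/
def PE4 : Prop := ∀ k : ℕ, ∃ K : ℕ, ∀ {V : Type} (G : SimpleGraph V) (B : ℕ → ℕ → Set V),
  Grid G K B → ∃ (B' : ℕ → ℕ → Set V) (L : ℕ) (X Y : ℕ → ℕ) (e : ℕ → ℕ → V) (μ : ℕ → ℕ),
    BlocksG G K B' k L X Y e μ

/-- E: extraction with gaps (from E3 and E4). -/
def PE : Prop := ∀ k : ℕ, ∃ K : ℕ, ∀ {V : Type} (G : SimpleGraph V) (B : ℕ → ℕ → Set V),
  Grid G K B → ∃ P, AdmG k P ∧ PatIn k P G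

/-! ## T: cleaning and the incidence graph -/

/-- No vertex of degree `2` has adjacent neighbours. -/
def Clean {V : Type} (G : SimpleGraph V) : Prop :=
  ∀ b u v, u ≠ v → G.neighborSet b = {u, v} → ¬ G.Adj u v

/-- T1: tree width and simplicial vertices of degree `2`. -/
def PT1 : Prop := ∀ {V : Type} (G : SimpleGraph V) (w : ℕ) (b u v : V), 2 ≤ w → G.Adj u v →
  G.neighborSet b = {u, v} → TreeWidthLE (rs G {b}ᶜ) w → TreeWidthLE G w

/-- T2: cleaning (uses T1, S5). -/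
def PT2 : Prop := ∀ {V : Type} [Finite V] (G : SimpleGraph V) (w : ℕ), 2 ≤ w →
  (∀ v, Sat G v) → ¬ TreeWidthLE G w → ∃ S : Set V, (∀ v, Sat (rs G S) v) ∧
    ¬ TreeWidthLE (rs G S) w ∧ Clean (rs G S)

/-- The edges which are in no triangle, and the triangles. -/
def Ed {V : Type} (G : SimpleGraph V) : Set (Set V) :=
  {s | (∃ x y, G.Adj x y ∧ s = {x, y} ∧ ∀ z, ¬ (G.Adj x z ∧ G.Adj y z)) ∨
    ∃ x y z, G.Adj x y ∧ G.Adj y z ∧ G.Adj x z ∧ s = {x, y, z}}

/-- The incidence graph. -/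
def Inc {V : Type} (G : SimpleGraph V) : SimpleGraph (V ⊕ Set V) where
  Adj a b := (∃ v s, a = .inl v ∧ b = .inr s ∧ s ∈ Ed G ∧ v ∈ s) ∨
    ∃ v s, b = .inl v ∧ a = .inr s ∧ s ∈ Ed G ∧ v ∈ s
  symm := ⟨fun _ _ h => h.symm⟩
  loopless := ⟨by
    rintro (a | a) (⟨v, s, h1, h2, -⟩ | ⟨v, s, h1, h2, -⟩) <;> simp_all⟩

/-- T3: the structure of clean graphs with satisfied vertices. -/
def PT3 : Prop := ∀ {V : Type} [Finite V] (G : SimpleGraph V), (∀ v, Sat G v) → Clean G →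
  (∀ x y z, G.Adj x y → G.Adj y z → G.Adj x z → dg G x = 3) ∧
  (∀ x y z y' z', G.Adj x y → G.Adj y z → G.Adj x z → G.Adj x y' → G.Adj y' z' → G.Adj x z' →
    ({x, y, z} : Set V) = {x, y', z'}) ∧
  (∀ x, {s | s ∈ Ed G ∧ x ∈ s}.ncard ≤ dg G x) ∧
  (∀ x y z, G.Adj x y → G.Adj y z → G.Adj x z → {s | s ∈ Ed G ∧ x ∈ s}.ncard ≤ 2) ∧
  (∀ x y, G.Adj x y → {s | s ∈ Ed G ∧ x ∈ s}.ncard ≤ 2 ∨ {s | s ∈ Ed G ∧ y ∈ s}.ncard ≤ 2)

/-- T4: tree width of the incidence graph. -/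
def PT4 : Prop := ∀ {V : Type} (G : SimpleGraph V) (w : ℕ), TreeWidthLE (Inc G) w →
  TreeWidthLE G (3 * (w + 1))

/-- T5: adjacency in `G` from the pattern in the incidence graph (uses T3, P0). -/
def PT5 : Prop := ∀ {V : Type} [Finite V] (G : SimpleGraph V), (∀ v, Sat G v) → Clean G →
  ∀ (K : ℕ) (P : Par) (φ : Lab → V ⊕ Set V), Adm K P →
  (∀ x y, Vx K P x → Vx K P y → φ x = φ y → x = y) →
  (∀ x y, AE K P x y → (Inc G).Adj (φ x) (φ y)) →
  ∀ x y v w, Vx K P x → Vx K P y → φ x = .inl v → φ y = .inl w →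
    (G.Adj v w ↔ x ≠ y ∧ ∃ z, AAdj K P x z ∧ AAdj K P z y)

/-! ## Systems of cells -/

/-- A system of `k * k` disjoint cells joined by induced paths. -/
structure CellSys {V : Type} (k : ℕ) (G : SimpleGraph V) (C : ℕ → ℕ → Set V)
    (rt : ℕ → ℕ → ℕ → V) (L : Bool → ℕ → ℕ → ℕ → V) (l : Bool → ℕ → ℕ → ℕ) : Prop where
  size : ∀ i j, i < k → j < k → 4 ≤ (C i j).ncard
  sinj : ∀ i j i' j', i < k → j < k → i' < k → j' < k → (C i j).ncard = (C i' j').ncard →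
    i = i' ∧ j = j'
  lbig : ∀ o i j i' j', Ex k o i j → i' < k → j' < k → 2 * (C i' j').ncard + 2 ≤ l o i j
  disj : ∀ i j i' j', i < k → j < k → i' < k → j' < k → (i, j) ≠ (i', j') →
    Disjoint (C i j) (C i' j')
  conn : ∀ i j, i < k → j < k → (G.induce (C i j)).Connected
  deg2 : ∀ i j, i < k → j < k → ∀ x ∈ C i j, ∃ a ∈ C i j, ∃ b ∈ C i j, a ≠ b ∧ G.Adj x a ∧
    G.Adj x b
  nohom : ∀ i j i' j', i < k → j < k → i' < k → j' < k → (i, j) ≠ (i', j') →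
    ¬ ∃ g : V → V, Set.InjOn g (C i j) ∧ Set.MapsTo g (C i j) (C i' j') ∧
      ∀ x ∈ C i j, ∀ y ∈ C i j, G.Adj x y → G.Adj (g x) (g y)
  rtC : ∀ i j d, i < k → j < k → d < 4 → rt i j d ∈ C i j
  rtinj : ∀ i j d d', i < k → j < k → d < 4 → d' < 4 → rt i j d = rt i j d' → d = d'
  L0 : ∀ o i j, Ex k o i j → L o i j 0 = rt i j (ro o)
  L1 : ∀ o i j, Ex k o i j → L o i j (l o i j) = rt (nx o i j).1 (nx o i j).2 (ri o)
  Lstep : ∀ o i j s, Ex k o i j → s < l o i j → G.Adj (L o i j s) (L o i j (s + 1))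
  Linj : ∀ o i j o' i' j' s s', Ex k o i j → Ex k o' i' j' → 1 ≤ s → s < l o i j → 1 ≤ s' →
    s' < l o' i' j' → L o i j s = L o' i' j' s' → o = o' ∧ i = i' ∧ j = j' ∧ s = s'
  Lout : ∀ o i j s i' j', Ex k o i j → 1 ≤ s → s < l o i j → i' < k → j' < k →
    L o i j s ∉ C i' j'
  CC : ∀ i j i' j' u v, i < k → j < k → i' < k → j' < k → u ∈ C i j → v ∈ C i' j' →
    G.Adj u v → i = i' ∧ j = j'
  CL : ∀ o i j s i' j' u, Ex k o i j → 1 ≤ s → s < l o i j → i' < k → j' < k → u ∈ C i' j' →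
    G.Adj u (L o i j s) → (s = 1 ∧ i' = i ∧ j' = j ∧ u = rt i j (ro o)) ∨
      (s + 1 = l o i j ∧ (i', j') = nx o i j ∧ u = rt i' j' (ri o))
  LL : ∀ o i j s o' i' j' s', Ex k o i j → Ex k o' i' j' → 1 ≤ s → s < l o i j → 1 ≤ s' →
    s' < l o' i' j' → G.Adj (L o i j s) (L o' i' j' s') →
      o = o' ∧ i = i' ∧ j = j' ∧ (s + 1 = s' ∨ s' + 1 = s)

/-! ## P: the half square of the pattern -/

/-- The half square of the pattern: two labels of colour `true` are adjacent if they have a common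
neighbour in the pattern. -/
def Hs (K : ℕ) (P : Par) (col : Lab → Bool) : SimpleGraph Lab where
  Adj x y := x ≠ y ∧ col x = true ∧ col y = true ∧ ∃ z, AAdj K P x z ∧ AAdj K P z y
  symm := ⟨fun _ _ h => ⟨h.1.symm, h.2.2.1, h.2.1, by
    obtain ⟨z, h1, h2⟩ := h.2.2.2
    exact ⟨z, h2.symm, h1.symm⟩⟩⟩
  loopless := ⟨fun _ h => h.1 rfl⟩

/-- Core of the cell `(i, j)`: the labels of colour `true` on the cycle `(i + 1, j + 1)` and
the first leg vertices behind roots of colour `false`. -/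
def Cs (P : Par) (col : Lab → Bool) (i j : ℕ) : Set Lab :=
  {x | col x = true ∧ ((∃ s, s < P.z (i + 1) (j + 1) ∧ x = .core (i + 1) (j + 1) s) ∨
    ∃ d, d < 4 ∧ col (hl P (i + 1) (j + 1) d 0) = false ∧ x = hl P (i + 1) (j + 1) d 1)}

/-- Where the leg starts. -/
def sta (P : Par) (col : Lab → Bool) (i j d : ℕ) : ℕ :=
  if col (hl P (i + 1) (j + 1) d 0) = true then 0 else 1

/-- The roots. -/
def rts (P : Par) (col : Lab → Bool) (i j d : ℕ) : Lab :=
  hl P (i + 1) (j + 1) d (sta P col i j d)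

/-- The lengths of the legs. -/
def ll (P : Par) (col : Lab → Bool) (o : Bool) (i j : ℕ) : ℕ :=
  (P.l o (i + 1) (j + 1) - sta P col i j (ro o) -
    sta P col (nx o i j).1 (nx o i j).2 (ri o)) / 2

/-- The legs. -/
def Lg (P : Par) (col : Lab → Bool) (o : Bool) (i j s : ℕ) : Lab :=
  if s = ll P col o i j then rts P col (nx o i j).1 (nx o i j).2 (ri o)
  else hl P (i + 1) (j + 1) (ro o) (sta P col i j (ro o) + 2 * s)

/-- The colours alternate along the edges of the pattern. -/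
def Alt (K : ℕ) (P : Par) (col : Lab → Bool) : Prop := ∀ x y, AAdj K P x y → col x ≠ col y

/-- P1: the size of the cores. -/
def PP1 : Prop := ∀ (k : ℕ) (P : Par) (col : Lab → Bool), AdmG (k + 2) P → Alt (k + 2) P col →
  ∀ i j, i < k → j < k → 2 ∣ P.z (i + 1) (j + 1) ∧
    P.z (i + 1) (j + 1) / 2 ≤ (Cs P col i j).ncard ∧
    (Cs P col i j).ncard ≤ P.z (i + 1) (j + 1) / 2 + 4 ∧ (Cs P col i j).Finite

/-- P2: neighbours in the cores, roots. -/
def PP2 : Prop := ∀ (k : ℕ) (P : Par) (col : Lab → Bool), AdmG (k + 2) P → Alt (k + 2) P col →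
  ∀ i j, i < k → j < k → ((Hs (k + 2) P col).induce (Cs P col i j)).Connected ∧
    (∀ x ∈ Cs P col i j, ∃ a ∈ Cs P col i j, ∃ b ∈ Cs P col i j, a ≠ b ∧
      (Hs (k + 2) P col).Adj x a ∧ (Hs (k + 2) P col).Adj x b) ∧
    (∀ d, d < 4 → rts P col i j d ∈ Cs P col i j) ∧
    ∀ d d', d < 4 → d' < 4 → rts P col i j d = rts P col i j d' → d = d'

/-- P3: there is no closed walk of steps `1`, or `2` between even numbers, without repetition. -/
def PP3 : Prop := ∀ (m : ℕ) (p : ℕ → ℤ), 4 ≤ m →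
  (∀ s t, s < m → t < m → p s = p t → s = t) →
  (∀ t, t < m → (p ((t + 1) % m) = p t + 1 ∨ p ((t + 1) % m) = p t - 1) ∨
    ((p ((t + 1) % m) = p t + 2 ∨ p ((t + 1) % m) = p t - 2) ∧ Even (p t))) → False

/-- P4: no core embeds into another one (uses P1, P3). -/
def PP4 : Prop := ∀ (k : ℕ) (P : Par) (col : Lab → Bool), AdmG (k + 2) P → Alt (k + 2) P col →
  ∀ i j i' j', i < k → j < k → i' < k → j' < k → (i, j) ≠ (i', j') →
    ¬ ∃ g : Lab → Lab, Set.InjOn g (Cs P col i j) ∧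
      Set.MapsTo g (Cs P col i j) (Cs P col i' j') ∧
      ∀ x ∈ Cs P col i j, ∀ y ∈ Cs P col i j, (Hs (k + 2) P col).Adj x y →
        (Hs (k + 2) P col).Adj (g x) (g y)

/-- P5: disjoint cores, adjacency between cores. -/
def PP5 : Prop := ∀ (k : ℕ) (P : Par) (col : Lab → Bool), AdmG (k + 2) P → Alt (k + 2) P col →
  ∀ i j i' j', i < k → j < k → i' < k → j' < k →
    ((i, j) ≠ (i', j') → Disjoint (Cs P col i j) (Cs P col i' j')) ∧
    ∀ u ∈ Cs P col i j, ∀ v ∈ Cs P col i' j', (Hs (k + 2) P col).Adj u v → i = i' ∧ j = j'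

/-- P6: the position on the leg: for `s ≤ ll` the vertex `Lg s` is at position `sta + 2 s` of the
old leg; the interior vertices are leg labels at distance at least `2` from both ends. -/
def PP6 : Prop := ∀ (k : ℕ) (P : Par) (col : Lab → Bool), AdmG (k + 2) P → Alt (k + 2) P col →
  ∀ o i j, Ex k o i j →
    (∀ i' j', i' < k → j' < k → P.z (i' + 1) (j' + 1) + 14 ≤ ll P col o i j) ∧
    sta P col i j (ro o) + 2 * ll P col o i j + sta P col (nx o i j).1 (nx o i j).2 (ri o) =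
      P.l o (i + 1) (j + 1) ∧
    (∀ s, 1 ≤ s → s < ll P col o i j →
      Lg P col o i j s = .leg o (i + 1) (j + 1) (sta P col i j (ro o) + 2 * s) ∧
      2 ≤ sta P col i j (ro o) + 2 * s ∧
      sta P col i j (ro o) + 2 * s + 2 ≤ P.l o (i + 1) (j + 1)) ∧
    Lg P col o i j 0 = rts P col i j (ro o) ∧
    ∀ s, s < ll P col o i j → (Hs (k + 2) P col).Adj (Lg P col o i j s) (Lg P col o i j (s + 1))

/-- P7: adjacency between interior leg vertices and cores (uses P6). -/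
def PP7 : Prop := ∀ (k : ℕ) (P : Par) (col : Lab → Bool), AdmG (k + 2) P → Alt (k + 2) P col →
  ∀ o i j s i' j' u, Ex k o i j → 1 ≤ s → s < ll P col o i j → i' < k → j' < k →
    u ∈ Cs P col i' j' → Lg P col o i j s ∉ Cs P col i' j' ∧
      ((Hs (k + 2) P col).Adj u (Lg P col o i j s) →
        (s = 1 ∧ i' = i ∧ j' = j ∧ u = rts P col i j (ro o)) ∨
        (s + 1 = ll P col o i j ∧ (i', j') = nx o i j ∧ u = rts P col i' j' (ri o)))

/-- P8: adjacency between interior leg vertices (uses P6). -/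
def PP8 : Prop := ∀ (k : ℕ) (P : Par) (col : Lab → Bool), AdmG (k + 2) P → Alt (k + 2) P col →
  ∀ o i j s o' i' j' s', Ex k o i j → Ex k o' i' j' → 1 ≤ s → s < ll P col o i j → 1 ≤ s' →
    s' < ll P col o' i' j' →
    (Lg P col o i j s = Lg P col o' i' j' s' → o = o' ∧ i = i' ∧ j = j' ∧ s = s') ∧
    ((Hs (k + 2) P col).Adj (Lg P col o i j s) (Lg P col o' i' j' s') →
      o = o' ∧ i = i' ∧ j = j' ∧ (s + 1 = s' ∨ s' + 1 = s))

/-- P: the half square contains a system of cells (from P1, P2, P4, P5, P6, P7, P8). -/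
def PP : Prop := ∀ (k : ℕ) (P : Par) (col : Lab → Bool), AdmG (k + 2) P → Alt (k + 2) P col →
  CellSys k (Hs (k + 2) P col) (Cs P col) (rts P col) (Lg P col) (ll P col)

/-! ## G: rigidity of patterns with general cores -/

/-- Directed edges of a pattern whose core `(i, j)` has the edges `E i j`. -/
inductive GAE (k : ℕ) (P : Par) (E : ℕ → ℕ → ℕ → ℕ → Prop) : Lab → Lab → Prop
  | cor (i j s s' : ℕ) (hi : i < k) (hj : j < k) (hs : s < P.z i j) (hs' : s' < P.z i j)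
      (h : E i j s s') : GAE k P E (.core i j s) (.core i j s')
  | out (o : Bool) (i j : ℕ) (h : Ex k o i j) :
      GAE k P E (.core i j (P.r i j (ro o))) (.leg o i j 1)
  | step (o : Bool) (i j s : ℕ) (h : Ex k o i j) (hs : 1 ≤ s) (hl : s + 1 < P.l o i j) :
      GAE k P E (.leg o i j s) (.leg o i j (s + 1))
  | inn (o : Bool) (i j : ℕ) (h : Ex k o i j) :
      GAE k P E (.leg o i j (P.l o i j - 1))
        (.core (nx o i j).1 (nx o i j).2 (P.r (nx o i j).1 (nx o i j).2 (ri o)))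

/-- Adjacency in the pattern with general cores. -/
def GAdj (k : ℕ) (P : Par) (E : ℕ → ℕ → ℕ → ℕ → Prop) (x y : Lab) : Prop :=
  GAE k P E x y ∨ GAE k P E y x

/-- Admissible patterns with general cores. -/
structure GAdm (k : ℕ) (P : Par) (E : ℕ → ℕ → ℕ → ℕ → Prop) : Prop where
  adm : Adm k P
  irr : ∀ i j s, ¬ E i j s s
  sym : ∀ i j s s', E i j s s' → E i j s' s
  deg2 : ∀ i j s, i < k → j < k → s < P.z i j → ∃ a b, a < P.z i j ∧ b < P.z i j ∧ a ≠ b ∧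
    E i j s a ∧ E i j s b
  conn : ∀ i j s s', i < k → j < k → s < P.z i j → s' < P.z i j →
    Relation.ReflTransGen (fun a b => a < P.z i j ∧ b < P.z i j ∧ E i j a b) s s'
  nohom : ∀ i j i' j', i < k → j < k → i' < k → j' < k → (i, j) ≠ (i', j') →
    ¬ ∃ g : ℕ → ℕ, (∀ s, s < P.z i j → g s < P.z i' j') ∧
      (∀ s s', s < P.z i j → s' < P.z i j → g s = g s' → s = s') ∧
      ∀ s s', s < P.z i j → s' < P.z i j → E i j s s' → E i' j' (g s) (g s')

/-- The kind of the zone of a label. -/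
def gk (P : Par) (x : Lab) : ZB := zb (zlab2 P x)

section
variable {W : Type}

/-- Adjacency in the host. -/
def GHAdj (k : ℕ) (P : Par) (E : ℕ → ℕ → ℕ → ℕ → Prop) (Γ : SimpleGraph W)
    (p q : Lab × (Option W × Option W)) : Prop :=
  GAdj k P E p.1 q.1 ∧ okz Γ (gk P p.1) p.2 ∧ okz Γ (gk P q.1) q.2 ∧
    cmp (gk P p.1) (gk P q.1) p.2 q.2

/-- An embedding of the pattern into its host. -/
structure GEmb (k : ℕ) (P : Par) (E : ℕ → ℕ → ℕ → ℕ → Prop) (Γ : SimpleGraph W)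
    (f : Lab → Lab × (Option W × Option W)) : Prop where
  inj : ∀ x y, Vx k P x → Vx k P y → f x = f y → x = y
  adj : ∀ x y, GAdj k P E x y → GHAdj k P E Γ (f x) (f y)

end

/-- G1: basic facts: ends of edges, edges along half legs, zones along half legs, uniqueness of
neighbours with a given label at vertices in cells. -/
def PG1 : Prop := ∀ {W : Type} (k : ℕ) (P : Par) (E : ℕ → ℕ → ℕ → ℕ → Prop)
  (Γ : SimpleGraph W), GAdm k P E →
  (∀ x y, GAdj k P E x y → Vx k P x ∧ Vx k P y) ∧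
  (∀ i j d s, Dt k i j d → s + 1 < lg P i j d →
    GAdj k P E (hl P i j d s) (hl P i j d (s + 1))) ∧
  (∀ i j d s, Dt k i j d → s < al P i j d → zlab2 P (hl P i j d s) = .cell i j) ∧
  (∀ i j d, Dt k i j d → ∃ o a b, zlab2 P (hl P i j d (al P i j d)) = .port o a b ∧
    (o = true ↔ 2 ≤ d)) ∧
  (∀ p q q' : Lab × (Option W × Option W), GHAdj k P E Γ p q → GHAdj k P E Γ p q' →
    q.1 = q'.1 → (∃ i j, zlab2 P p.1 = .cell i j) → q = q')

/-- G2: neighbours in the host of a leg vertex which is not a port (uses G1). -/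
def PG2 : Prop := ∀ {W : Type} (k : ℕ) (P : Par) (E : ℕ → ℕ → ℕ → ℕ → Prop)
  (Γ : SimpleGraph W), GAdm k P E → ∀ i j d s v q, Dt k i j d → 1 ≤ s → s < al P i j d →
    GHAdj k P E Γ (hl P i j d s, v) q →
      q = (hl P i j d (s - 1), v) ∨
        (q.1 = hl P i j d (s + 1) ∧ (s + 1 < al P i j d → q.2 = v))

/-- G3: neighbours in the host of a core vertex (uses G1). -/
def PG3 : Prop := ∀ {W : Type} (k : ℕ) (P : Par) (E : ℕ → ℕ → ℕ → ℕ → Prop)
  (Γ : SimpleGraph W), GAdm k P E → ∀ i j s v q, GHAdj k P E Γ (.core i j s, v) q →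
    q.2 = v ∧ ((∃ s', s' < P.z i j ∧ E i j s s' ∧ q.1 = .core i j s') ∨
      ∃ d, Dt k i j d ∧ s = P.r i j d ∧ q.1 = hl P i j d 1)

/-- G4: neighbours in the host of a port; every vertex of the pattern is in a core, inside a
half leg, or a port. -/
def PG4 : Prop := ∀ {W : Type} (k : ℕ) (P : Par) (E : ℕ → ℕ → ℕ → ℕ → Prop)
  (Γ : SimpleGraph W), GAdm k P E →
  (∀ x v q o a b, zlab2 P x = .port o a b → GHAdj k P E Γ (x, v) q →
    ∃ i j d, Dt k i j d ∧ q.1 = hl P i j d (al P i j d - 1)) ∧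
  (∀ x, Vx k P x → (∃ i j s, i < k ∧ j < k ∧ s < P.z i j ∧ x = .core i j s) ∨
    (∃ i j d s, Dt k i j d ∧ 1 ≤ s ∧ s < al P i j d ∧ x = hl P i j d s) ∨
    ∃ o a b, zlab2 P x = .port o a b) ∧
  (∀ i j d, Dt k i j d → ∀ s s', s ≤ al P i j d → s' ≤ al P i j d → hl P i j d s = hl P i j d s' →
    s = s') ∧
  (∀ i j d i' j', Dt k i j d → i' < k → j' < k → P.z i' j' + 1 ≤ al P i j d)

/-- G5: cores are mapped to cores (uses G1, G2, G4). -/
def PG5 : Prop := ∀ {W : Type} (k : ℕ) (P : Par) (E : ℕ → ℕ → ℕ → ℕ → Prop)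
  (Γ : SimpleGraph W) (f : Lab → Lab × (Option W × Option W)), GAdm k P E →
    GEmb k P E Γ f → ∀ i j s, i < k → j < k → s < P.z i j →
      ∃ i' j' s', i' < k ∧ j' < k ∧ s' < P.z i' j' ∧ (f (.core i j s)).1 = .core i' j' s'

/-- G6: every core is mapped onto a copy of itself (uses G3, G5). -/
def PG6 : Prop := ∀ {W : Type} (k : ℕ) (P : Par) (E : ℕ → ℕ → ℕ → ℕ → Prop)
  (Γ : SimpleGraph W) (f : Lab → Lab × (Option W × Option W)), GAdm k P E →
    GEmb k P E Γ f → ∀ i j, i < k → j < k → ∃ (v : Option W × Option W) (π : ℕ → ℕ),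
      (∀ s, s < P.z i j → π s < P.z i j ∧ f (.core i j s) = (.core i j (π s), v)) ∧
      (∀ s', s' < P.z i j → ∃ s, s < P.z i j ∧ π s = s')

/-- G7: the legs start along whole half legs (uses G1, G2, G3, G6; compare R6 of the first
theorem; `Leg6` is that of the first theorem). -/
def PG7 : Prop := ∀ {W : Type} (k : ℕ) (P : Par) (E : ℕ → ℕ → ℕ → ℕ → Prop)
  (Γ : SimpleGraph W) (f : Lab → Lab × (Option W × Option W)), GAdm k P E →
    GEmb k P E Γ f → ∃ (val : ℕ → ℕ → Option W × Option W) (τ : ℕ → ℕ → ℕ → ℕ),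
      (∀ i j s, i < k → j < k → s < P.z i j → ∃ s', s' < P.z i j ∧
        f (.core i j s) = (.core i j s', val i j)) ∧ Leg6 k P f val τ

/-- G8: the total length argument (R7 of the first theorem without `IsEmb`). -/
def PG8 : Prop := ∀ {V : Type} (k : ℕ) (P : Par) (f : Lab → Lab × (V × V))
  (val : ℕ → ℕ → V × V) (τ : ℕ → ℕ → ℕ → ℕ), Adm k P → Leg6 k P f val τ →
    ∀ o i j, Ex k o i j → al P i j (τ i j (ro o)) +
      al P (nx o i j).1 (nx o i j).2 (τ (nx o i j).1 (nx o i j).2 (ri o)) = P.l o i j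

/-- G9: neighbouring cells have compatible values (uses G1, G8; compare R8). -/
def PG9 : Prop := ∀ {W : Type} (k : ℕ) (P : Par) (E : ℕ → ℕ → ℕ → ℕ → Prop)
  (Γ : SimpleGraph W) (f : Lab → Lab × (Option W × Option W))
  (val : ℕ → ℕ → Option W × Option W) (τ : ℕ → ℕ → ℕ → ℕ), GAdm k P E → GEmb k P E Γ f →
    Leg6 k P f val τ → (∀ i j, i < k → j + 1 < k → (val i j).1 = (val i (j + 1)).1) ∧
      (∀ i j, i + 1 < k → j < k → (val i j).2 = (val (i + 1) j).2)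

/-- G10: an embedding gives a clique (uses G1, G7, G9). -/
def PG10 : Prop := ∀ {W : Type} (k : ℕ) (P : Par) (E : ℕ → ℕ → ℕ → ℕ → Prop)
  (Γ : SimpleGraph W) (f : Lab → Lab × (Option W × Option W)), GAdm k P E →
    GEmb k P E Γ f → Kq k Γ

/-- G11: a clique gives an embedding (compare A6 of `Reg`; `L4` of `Reg` for the zones). -/
def PG11 : Prop := ∀ {W : Type} (k : ℕ) (P : Par) (E : ℕ → ℕ → ℕ → ℕ → Prop)
  (Γ : SimpleGraph W), GAdm k P E → Kq k Γ → ∃ f, GEmb k P E Γ f ∧ ∀ x, (f x).1 = x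

/-- G12: graphs with labels (uses G10, G11). -/
def PG12 : Prop := ∀ {V : Type} (k : ℕ) (P : Par) (E : ℕ → ℕ → ℕ → ℕ → Prop)
  (G : SimpleGraph V) (φ : Lab → V), GAdm k P E →
  (∀ x y, Vx k P x → Vx k P y → φ x = φ y → x = y) → (∀ v, ∃ x, Vx k P x ∧ φ x = v) →
  (∀ x y, Vx k P x → Vx k P y → (G.Adj (φ x) (φ y) ↔ GAdj k P E x y)) →
    ∃ ζ : V → ZB, ∀ {W : Type} (Γ : SimpleGraph W), Kq k Γ ↔ Embeds G (host G ζ Γ)

/-- C1: a system of cells is a pattern with general cores. -/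
def PC1 : Prop := ∀ {V : Type} [Nonempty V] (k : ℕ) (G : SimpleGraph V) (C : ℕ → ℕ → Set V)
  (rt : ℕ → ℕ → ℕ → V) (L : Bool → ℕ → ℕ → ℕ → V) (l : Bool → ℕ → ℕ → ℕ),
  CellSys k G C rt L l → ∃ (P : Par) (E : ℕ → ℕ → ℕ → ℕ → Prop) (φ : Lab → V), GAdm k P E ∧
    (∀ x y, Vx k P x → Vx k P y → φ x = φ y → x = y) ∧
    (∀ x y, Vx k P x → Vx k P y → (G.Adj (φ x) (φ y) ↔ GAdj k P E x y)) ∧
    ∀ x, Vx k P x → (∃ i j, i < k ∧ j < k ∧ φ x ∈ C i j) ∨
      ∃ o i j s, Ex k o i j ∧ 1 ≤ s ∧ s < l o i j ∧ φ x = L o i j s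

/-- C2: transport to codes. -/
def PC2 : Prop := ∀ {V : Type} [Finite V] (k : ℕ) (G : SimpleGraph V) (ζ : V → ZB),
  (∀ {W : Type} (Γ : SimpleGraph W), Kq k Γ ↔ Embeds G (host G ζ Γ)) →
    ∃ (A : Code) (f : Fin A.length → V) (ζ' : Fin A.length → ZB), Function.Injective f ∧
      (∀ x y, (graph A).Adj x y ↔ G.Adj (f x) (f y)) ∧
      ∀ {W : Type} (Γ : SimpleGraph W), Kq k Γ ↔ Embeds (graph A) (host (graph A) ζ' Γ)

end Pool.Agent.PHer
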